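import Mathlib
import Pool.Agent.Zk12.FG.Stm
import Pool.Agent.Y157.PS.Defs

/-!
# Birational sections of the generic quadratic twist of an arbitrary hyperelliptic curve:
statements of the parts (project HT)

`k₁ = ℚ(t_1, …, t_n)`, `k = k₁(t_0)`, `f ∈ k₁[x]` separable of even degree at least 4,
`X : t_0 y² = f(x)`. Every section of `Gal(Ω/F) → G_k`, `F` the function field of `X` or of a covering
of it, comes from exactly one rational point, over a point `(e, 0)`.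

1. (Y157) the section fixes a place above a rational branch point `e` on the maximal unramified
pro-2 extension `M`; so the point `Q = (1 / (x - e), …)` of `E : Y² = (X - a) (X - b) (X - c)`,
`a = 1 / (e₁ - e)` etc., is infinitely 2-divisible over the fixed field (`S_TOWA`, `S_TOW`).
2. over a finite extension `L` of `ℚ_2` only finitely many points are infinitely 2-divisible, and they
are not near the origin (`S_ELL`). So for the embeddings `k → L` which agree on `k₁`, the value of `x`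
at the local points (`S_KOEL`) is in a finite set. By counting classes modulo `N`-th powers the class
of `(x - β) / (x - β')` along `s` is in `k₁* k*^N`, for `β, β' ∈ k₁` near `e` (`S_CON`).
3. then for all `p` and all embeddings `k → ℚ_p` the value of `x` does not depend on the value of
`t_0`, and so it is a root of `f`.
-/

set_option autoImplicit false
set_option linter.all false

open Polynomial FF

namespace Pool.Agent.Zk12.HT

open Pool.Agent.TH954 Pool.Agent.Zk12.FG Pool.Agent.Y157.PS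

/-- an infinite sequence of halves of a point with first coordinate `X₀` on
`Y² = (X - a) (X - b) (X - c)` -/
def Halves {L : Type} [Field L] (a b c : L) (X α β γ : ℕ → L) : Prop :=
  ∀ j, α j ^ 2 = X j - a ∧ β j ^ 2 = X j - b ∧ γ j ^ 2 = X j - c ∧
    X (j + 1) = X j + α j * β j + β j * γ j + γ j * α j

/-- the point with first coordinate `X₀` is infinitely 2-divisible -/
def Chain {L : Type} [Field L] (a b c X₀ : L) : Prop :=
  ∃ X α β γ : ℕ → L, X 0 = X₀ ∧ Halves a b c X α β γ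

open scoped Classical in
/-- **part A (abstract tower)**. `M` is the maximal unramified pro-2 extension, `W` a place above the
branch point `e`. For all automorphisms `τ` which fix `W`, `x`, `Y` and the branch points, the halves
of `1 / (x - e)` are fixed.
(the `Y_j`: `a_l := 1/(e_l - e)`, `α_l ^ 2 = 1/(x-e) - 1/(e_l - e)` for all `l`, normalised by
`α_l / α_1 → 1` at `W`; the product of all `α_l` is a constant times `Y / (x - e)^(#B/2)`.) -/
def S_TOWA : Prop := ∀ (κ R M : Type) [Field κ] [IsAlgClosed κ] [CharZero κ] [Field R] [Field M]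
  [Algebra κ R] [Algebra R M] [Algebra κ M] [IsScalarTower κ R M] (x : R) (B : Finset κ) (Y : M),
  Cov 2 κ R M x B Y → ∀ (W : Place κ M) (e : κ), e ∈ B →
  0 < W.ord (algebraMap R M x - algebraMap κ M e) →
  ∃ (a b c q : κ) (X α β γ : ℕ → M), a ≠ b ∧ b ≠ c ∧ a ≠ c ∧
    (∃ e₁ ∈ B, e₁ ≠ e ∧ a = (e₁ - e)⁻¹) ∧ (∃ e₁ ∈ B, e₁ ≠ e ∧ b = (e₁ - e)⁻¹) ∧
    (∃ e₁ ∈ B, e₁ ≠ e ∧ c = (e₁ - e)⁻¹) ∧ q ^ 2 = - ∏ e₁ ∈ B.erase e, (e₁ - e) ∧
    X 0 = (algebraMap R M x - algebraMap κ M e)⁻¹ ∧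
    Halves (algebraMap κ M a) (algebraMap κ M b) (algebraMap κ M c) X α β γ ∧
    ∀ (τ : M ≃+* M) (σ : κ ≃+* κ), (∀ z, τ (algebraMap κ M z) = algebraMap κ M (σ z)) →
      τ (algebraMap R M x) = algebraMap R M x → Fixes W τ → (∀ z ∈ B, σ z = z) → σ q = q → τ Y = Y →
      ∀ j, τ (X j) = X j ∧ τ (α j) = α j ∧ τ (β j) = β j ∧ τ (γ j) = γ j

/-- the setting: `k₁ = ℚ(t_1, …, t_n)`, `k = k₁(t_0)`, `t_0 y² = f(x)` in the field `F`, which is
algebraic over `k(x)` -/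
structure Setting {n : ℕ} {k₁ k F : Type} [Field k₁] [Field k] [Field F] [Algebra ℚ k₁]
    [Algebra k₁ k] [Algebra k F] (t : Fin n → k₁) (t₀ : k) (f : k₁[X]) (x y : F) : Prop where
  rat : RatFn ℚ t
  trans : Transcendental k₁ t₀
  gen : IntermediateField.adjoin k₁ {t₀} = ⊤
  sep : f.Separable
  even : Even f.natDegree
  four : 4 ≤ f.natDegree
  x_trans : Transcendental k x
  alg : Algebra.IsAlgebraic (IntermediateField.adjoin k {x}) F
  eqn : algebraMap k F t₀ * y ^ 2 = aeval x (f.map (algebraMap k₁ k))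

/-- **part B (tower)** -/
def S_TOW : Prop := ∀ (n : ℕ) (k₁ k F Ω B : Type) [Field k₁] [Field k] [Field F] [Field Ω] [Field B]
  [Algebra ℚ k₁] [Algebra k₁ k] [Algebra k F] [Algebra F Ω] [Algebra k Ω] [Algebra k B]
  [Algebra k₁ B] [IsScalarTower k₁ k B]
  [IsScalarTower k F Ω] [IsAlgClosure F Ω] [IsAlgClosure k B] (t : Fin n → k₁) (t₀ : k) (f : k₁[X])
  (x y : F), Setting t t₀ f x y → ∀ s : GalSection k F Ω B,
  ∃ (e : k₁) (T : Finset B) (a b c r : B) (X α β γ : ℕ → Ω), f.eval e = 0 ∧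
    (∀ z ∈ T, IsAlgebraic k₁ z) ∧ a ∈ T ∧ b ∈ T ∧ c ∈ T ∧ a ≠ b ∧ b ≠ c ∧ a ≠ c ∧
    r ^ 2 = algebraMap k B t₀ ∧
    X 0 = algebraMap F Ω (x - algebraMap k F (algebraMap k₁ k e))⁻¹ ∧
    Halves (s.j a) (s.j b) (s.j c) X α β γ ∧
    ∀ g : B ≃ₐ[k] B, (∀ z ∈ T, g z = z) → g r = r →
      ∀ j, s.s g (X j) = X j ∧ s.s g (α j) = α j ∧ s.s g (β j) = β j ∧ s.s g (γ j) = γ j

/-- **part C (elliptic curves over 2-adic fields)** -/
def S_ELL : Prop := ∀ (L : Type) [NontriviallyNormedField L] [IsUltrametricDist L] [ProperSpace L]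
  [CharZero L], ‖(2 : L)‖ < 1 → ∀ a b c : L, a ≠ b → b ≠ c → a ≠ c →
  {X₀ : L | Chain a b c X₀}.Finite ∧
    ∀ X₀ : L, Chain a b c X₀ → ‖(2 : L)‖ ^ 10 * ‖X₀‖ ≤ max ‖a‖ (max ‖b‖ ‖c‖)

/-- **part D (Koenigsmann over the finite extensions of `ℚ_p`)**, with a given restriction `ι` -/
def S_KOEL : Prop := ∀ (p : ℕ) [Fact p.Prime] (L k F Ω B C : Type) [Field L] [Field k] [Field F]
  [Field Ω] [Field B] [Field C] [Algebra ℚ_[p] L] [FiniteDimensional ℚ_[p] L] [Algebra k L]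
  [Algebra L C] [Algebra k C] [IsScalarTower k L C] [IsAlgClosure L C] [Algebra k F] [Algebra F Ω]
  [Algebra k Ω] [Algebra k B] [IsScalarTower k F Ω] [IsAlgClosure F Ω] [IsAlgClosure k B]
  (s : GalSection k F Ω B) (ι : B →ₐ[k] C),
  ∃ pl : Plc k Ω C, s.GivenBy L pl ∧ ∀ z : B, pl.val (s.j z) (ι z)

/-- **part E (local evaluation)**: fixed elements have values in `L` -/
def S_EVAL : Prop := ∀ (L k F Ω B C : Type) [Field L] [CharZero L] [Field k] [Field F]
  [Field Ω] [Field B] [Field C] [Algebra k L]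
  [Algebra L C] [Algebra k C] [IsScalarTower k L C] [IsAlgClosure L C] [Algebra k F] [Algebra F Ω]
  [Algebra k Ω] [Algebra k B] [IsScalarTower k F Ω] [IsAlgClosure F Ω] [IsAlgClosure k B]
  (s : GalSection k F Ω B) (ι : B →ₐ[k] C) (pl : Plc k Ω C), s.GivenBy L pl →
  (∀ z : B, pl.val (s.j z) (ι z)) → ∀ S : Set B, (∀ z ∈ S, ∃ q : L, ι z = algebraMap L C q) →
  ∀ w : Ω, (∀ g : B ≃ₐ[k] B, (∀ z ∈ S, g z = z) → s.s g w = w) → ∀ c : C, pl.val w c →
  ∃ q : L, c = algebraMap L C q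

/-- **part K (Kummer classes)** -/
def S_KUMM : Prop := ∀ (k F Ω B : Type) [Field k] [CharZero k] [Field F] [Field Ω] [Field B]
  [Algebra k F] [Algebra F Ω] [Algebra k Ω] [Algebra k B] [IsScalarTower k F Ω] [IsAlgClosure F Ω]
  [IsAlgClosure k B] (s : GalSection k F Ω B), ∀ N : ℕ, 1 ≤ N →
  (∀ w : Ω, w ≠ 0 → (∀ g, s.s g w = w) → ∃ (c : k) (u : Ω), c ≠ 0 ∧ u ≠ 0 ∧ (∀ g, s.s g u = u) ∧
    w = algebraMap k Ω c * u ^ N) ∧
  ∀ (c : k) (u : Ω), (∀ g, s.s g u = u) → u ^ N = algebraMap k Ω c → ∃ d : k, d ^ N = c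

/-- **part M (embeddings)**: embeddings of `B` in the algebraic closure of `ℚ_2` which agree on the
elements which are algebraic over `k₁`, and such that the value of the square root `r` of `t_0` is
near to any given algebraic element -/
def S_EMB : Prop := ∀ (n : ℕ) (k₁ k B : Type) [Field k₁] [Field k] [Field B]
  [Algebra ℚ k₁] [Algebra k₁ k] [Algebra k B] [Algebra k₁ B] [IsScalarTower k₁ k B]
  [IsAlgClosure k B] (t : Fin n → k₁) (t₀ : k), RatFn ℚ t → Transcendental k₁ t₀ →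
  IntermediateField.adjoin k₁ {t₀} = ⊤ →
  ∃ (ι₀ : algebraicClosure k₁ B →+* PadicAlgCl 2) (η : ℚ_[2]), ‖η‖ = 1 ∧
    (∀ z : k₁, ∃ q : ℚ_[2], ι₀ (algebraMap k₁ _ z) = algebraMap ℚ_[2] (PadicAlgCl 2) q) ∧
    ∀ (r : B), r ^ 2 = algebraMap k B t₀ → ∀ (ς : algebraicClosure k₁ B) (j : ℕ), 1 ≤ j →
      ∃ ι : B →+* PadicAlgCl 2, (∀ z : algebraicClosure k₁ B, ι z = ι₀ z) ∧
        ι r = ι₀ ς + 2 ^ j * algebraMap ℚ_[2] (PadicAlgCl 2) η

/-- **part P1 (polynomials)**: a rational function whose orders at all points are divisible by `N` is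
a constant times an `N`-th power -/
def S_POWR : Prop := ∀ (k A : Type) [Field k] [CharZero k] [Field A] [Algebra k A] [IsAlgClosure k A]
  (N : ℕ), 1 ≤ N → ∀ P Q : k[X], P ≠ 0 → Q ≠ 0 →
  (∀ ρ : A, (N : ℤ) ∣ ((P.map (algebraMap k A)).rootMultiplicity ρ : ℤ) -
    ((Q.map (algebraMap k A)).rootMultiplicity ρ : ℤ)) →
  ∃ (h : k) (D E : k[X]), h ≠ 0 ∧ D ≠ 0 ∧ E ≠ 0 ∧ P * E ^ N = C h * (Q * D ^ N)

/-- **part P2 (norms)**: the norm of a polynomial near a point -/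
def S_NORM : Prop := ∀ (L : Type) [NormedField L] [IsUltrametricDist L] (P : L[X]), P ≠ 0 → ∀ ρ : L,
  ∃ κ ε : ℝ, 0 < κ ∧ 0 < ε ∧ ∀ τ : L, 0 < ‖τ - ρ‖ → ‖τ - ρ‖ < ε →
    ‖P.eval τ‖ = ‖τ - ρ‖ ^ P.rootMultiplicity ρ * κ

/-- **part Q (value groups)**: the absolute value of a finite extension of `ℚ_p` is discrete -/
def S_DISC : Prop := ∀ (p : ℕ) [Fact p.Prime] (L : IntermediateField ℚ_[p] (PadicAlgCl p)),
  FiniteDimensional ℚ_[p] L → ∃ D : ℕ, 1 ≤ D ∧ ∀ z ∈ L, z ≠ 0 → ∃ i : ℤ,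
    ‖z‖ ^ D = (p : ℝ) ^ i

/-- **part S (constant classes)**: the conclusion of the 2-adic part -/
def S_CON : Prop := ∀ (n : ℕ) (k₁ k F Ω B : Type) [Field k₁] [Field k] [Field F] [Field Ω] [Field B]
  [Algebra ℚ k₁] [Algebra k₁ k] [Algebra k F] [Algebra F Ω] [Algebra k Ω] [Algebra k B]
  [IsScalarTower k F Ω] [IsAlgClosure F Ω] [IsAlgClosure k B] (t : Fin n → k₁) (t₀ : k) (f : k₁[X])
  (x y : F), Setting t t₀ f x y → ∀ s : GalSection k F Ω B,
  ∃ (e : k₁) (m₀ : ℕ), ∀ m m' : ℕ, m₀ ≤ m → m₀ ≤ m' → ∀ N : ℕ, 1 ≤ N → ∃ (h : k₁) (w : Ω), h ≠ 0 ∧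
    (∀ g, s.s g w = w) ∧
    algebraMap F Ω ((x - algebraMap k F (algebraMap k₁ k (e + 2 ^ m))) /
      (x - algebraMap k F (algebraMap k₁ k (e + 2 ^ m')))) =
      algebraMap k Ω (algebraMap k₁ k h) * w ^ N

/-- **the theorem**: the birational section conjecture for the generic twist -/
def S_HT : Prop := ∀ (n : ℕ) (k₁ k F Ω B : Type) [Field k₁] [Field k] [Field F] [Field Ω] [Field B]
  [Algebra ℚ k₁] [Algebra k₁ k] [Algebra k F] [Algebra F Ω] [Algebra k Ω] [Algebra k B]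
  [IsScalarTower k F Ω] [IsAlgClosure F Ω] [IsAlgClosure k B] (t : Fin n → k₁) (t₀ : k) (f : k₁[X])
  (x y : F), Setting t t₀ f x y → ∀ s : GalSection k F Ω B,
  ∃ O : ValuationSubring F, (aeval x (f.map (algebraMap k₁ k)))⁻¹ ∉ O ∧ s.ArisesFrom O ∧
    ∀ O' : ValuationSubring F, s.ArisesFrom O' → O' = O

end Pool.Agent.Zk12.HT
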