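import Mathlib
import Pool.Agent.Zk12.HT.Stm
import Pool.Agent.TH954.SVal

/-!
# Project HT, part S: small lemmas and the local step
-/

set_option autoImplicit false
set_option linter.all false

open Polynomial FF

namespace Pool.Agent.Zk12.HT

open Pool.Agent.TH954 Pool.Agent.Zk12.FG Pool.Agent.Y157.PS

/-- the arithmetic -/
theorem arith (N D r ε : ℕ) (v z : ℤ) (i i' : ℕ) (hD : 1 ≤ D) (hε : ε = 1 ∨ ε = 2)
    (hlt : i < i') (hi' : i' ≤ r + 1)
    (h : ((i' - i : ℕ) : ℤ) * ε * D * v = z * ((N * (2 * D * (r + 1).factorial) : ℕ) : ℤ)) :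
    (N : ℤ) ∣ v := by
  obtain ⟨q, hq⟩ : (i' - i) ∣ (r + 1).factorial :=
    Nat.dvd_factorial (by omega) (by omega)
  have h2 : ∃ q' : ℕ, 2 * D * (r + 1).factorial = (i' - i) * ε * D * q' := by
    rcases hε with rfl | rfl
    · exact ⟨2 * q, by rw [hq]; ring⟩
    · exact ⟨q, by rw [hq]; ring⟩
  obtain ⟨q', hq'⟩ := h2
  rw [hq'] at h
  push_cast at h
  have h3 : ((i' - i : ℕ) : ℤ) * ε * D ≠ 0 := by
    have h4 : ((i' - i : ℕ) : ℤ) ≠ 0 := by
      have : i' - i ≠ 0 := by omega
      exact_mod_cast this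
    have h5 : (ε : ℤ) ≠ 0 := by rcases hε with rfl | rfl <;> norm_num
    have h6 : (D : ℤ) ≠ 0 := by
      have : D ≠ 0 := by omega
      exact_mod_cast this
    exact mul_ne_zero (mul_ne_zero h4 h5) h6
  refine ⟨z * q', mul_left_cancel₀ h3 ?_⟩
  rw [h]
  ring

/-- the distance of `(ς + 2^j η)²` from `ς²` -/
theorem near {C : Type} [NormedField C] [IsUltrametricDist C] (h2 : ‖(2 : C)‖ = 1 / 2)
    (ς η : C) (hη : ‖η‖ = 1) :
    ∃ (ε : ℕ) (κ : ℝ) (j₀ : ℕ), (ε = 1 ∨ ε = 2) ∧ 0 < κ ∧ ∀ j, j₀ ≤ j →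
      ‖(ς + 2 ^ j * η) ^ 2 - ς ^ 2‖ = (1 / 2 : ℝ) ^ (ε * j) * κ := by
  have h0 : (2 : C) ≠ 0 := by
    intro h
    rw [h, norm_zero] at h2
    norm_num at h2
  by_cases hς : ς = 0
  · refine ⟨2, 1, 0, Or.inr rfl, one_pos, fun j _ => ?_⟩
    rw [hς, zero_add, zero_pow two_ne_zero, sub_zero, mul_pow, norm_mul, norm_pow, norm_pow,
      norm_pow, hη, h2]
    ring
  · have h3 : 0 < ‖2 * ς‖ := norm_pos_iff.2 (mul_ne_zero h0 hς)
    obtain ⟨j₀, hj₀⟩ := exists_pow_lt_of_lt_one h3 (y := (1 / 2 : ℝ)) (by norm_num)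
    refine ⟨1, ‖2 * ς‖, j₀, Or.inl rfl, h3, fun j hj => ?_⟩
    have h4 : ‖(2 : C) ^ j * η‖ = (1 / 2 : ℝ) ^ j := by
      rw [norm_mul, norm_pow, hη, h2, mul_one]
    have h5 : ‖(2 : C) ^ j * η‖ < ‖2 * ς‖ := by
      rw [h4]
      exact lt_of_le_of_lt (pow_le_pow_of_le_one (by norm_num) (by norm_num) hj) hj₀
    have h6 : ‖2 * ς + 2 ^ j * η‖ = ‖2 * ς‖ := by
      rw [IsUltrametricDist.norm_add_eq_max_of_norm_ne_norm h5.ne', max_eq_left h5.le]
    have h7 : (ς + 2 ^ j * η) ^ 2 - ς ^ 2 = 2 ^ j * η * (2 * ς + 2 ^ j * η) := by ring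
    rw [h7, norm_mul, h6, h4, one_mul]

/-- the elements of `k₁(t₀)` -/
theorem ratfun {k₁ k : Type} [Field k₁] [Field k] [Algebra k₁ k] {t₀ : k}
    (ht : IntermediateField.adjoin k₁ {t₀} = ⊤) (C : k) (hC : C ≠ 0) :
    ∃ P Q : k₁[X], P ≠ 0 ∧ Q ≠ 0 ∧ aeval t₀ Q ≠ 0 ∧ aeval t₀ P ≠ 0 ∧
      C = aeval t₀ P / aeval t₀ Q := by
  have h1 : C ∈ IntermediateField.adjoin k₁ {t₀} := by
    rw [ht]
    exact IntermediateField.mem_top
  rw [IntermediateField.mem_adjoin_simple_iff] at h1
  obtain ⟨P, Q, h2⟩ := h1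
  have hQ : aeval t₀ Q ≠ 0 := by
    intro h
    rw [h, div_zero] at h2
    exact hC h2
  have hP : aeval t₀ P ≠ 0 := by
    intro h
    rw [h, zero_div] at h2
    exact hC h2
  refine ⟨P, Q, ?_, ?_, hQ, hP, h2⟩
  · rintro rfl
    exact hP (map_zero _)
  · rintro rfl
    exact hQ (map_zero _)

/-- the value of `(x - E - μ) / (x - E - μ')`, as a function of `1 / (x - E)` -/
def Gam {L : Type} [Field L] (μ μ' : L) : Option L → L
  | none => μ / μ'
  | some X => (1 - μ * X) / (1 - μ' * X)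

/-- **the local step** -/
theorem local_step (hKOEL : S_KOEL) (hEVAL : S_EVAL) (p : ℕ) [Fact p.Prime]
    (L k F Ω B C : Type) [Field L] [CharZero L] [Field k] [CharZero k] [Field F]
    [Field Ω] [Field B] [Field C] [Algebra ℚ_[p] L] [FiniteDimensional ℚ_[p] L] [Algebra k L]
    [Algebra L C] [Algebra k C] [IsScalarTower k L C] [IsAlgClosure L C] [Algebra k F] [Algebra F Ω]
    [Algebra k Ω] [Algebra k B] [IsScalarTower k F Ω] [IsAlgClosure F Ω] [IsAlgClosure k B]
    (s : GalSection k F Ω B) (ι : B →ₐ[k] C) (T : Finset B) (a b c r : B)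
    (aL bL cL : L) (ha : ι a = algebraMap L C aL) (hb : ι b = algebraMap L C bL)
    (hc : ι c = algebraMap L C cL) (hTL : ∀ z ∈ T, ∃ q : L, ι z = algebraMap L C q)
    (hr : ∃ q : L, ι r = algebraMap L C q)
    (x : F) (E : k) (hx : Transcendental k x) (X α β γ : ℕ → Ω)
    (hX0 : X 0 = algebraMap F Ω (x - algebraMap k F E)⁻¹)
    (hH : Halves (s.j a) (s.j b) (s.j c) X α β γ)
    (hfix : ∀ g : B ≃ₐ[k] B, (∀ z ∈ T, g z = z) → g r = r →
      ∀ j, s.s g (X j) = X j ∧ s.s g (α j) = α j ∧ s.s g (β j) = β j ∧ s.s g (γ j) = γ j)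
    (μ μ' : k) (hμ : μ ≠ 0) (hμ' : μ' ≠ 0)
    (hne : ∀ X₀ : L, Chain aL bL cL X₀ → 1 - algebraMap k L μ * X₀ ≠ 0 ∧
      1 - algebraMap k L μ' * X₀ ≠ 0)
    (C' : k) (hC' : C' ≠ 0) (w' : Ω) (hw' : ∀ g, s.s g w' = w') (n' : ℕ) (hn' : 1 ≤ n')
    (hG : algebraMap F Ω ((x - algebraMap k F E - algebraMap k F μ) /
      (x - algebraMap k F E - algebraMap k F μ')) = algebraMap k Ω C' * w' ^ n') :
    ∃ u : Option L, (∀ X₀, u = some X₀ → Chain aL bL cL X₀) ∧ ∃ ω : L, ω ≠ 0 ∧
      Gam (algebraMap k L μ) (algebraMap k L μ') u = algebraMap k L C' * ω ^ n' ∧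
      Gam (algebraMap k L μ) (algebraMap k L μ') u ≠ 0 := by
  obtain ⟨pl, hgiv, hpl⟩ := hKOEL p L k F Ω B C s ι
  have hev := hEVAL L k F Ω B C s ι pl hgiv hpl
  have hx0 : ∀ c : k, x - algebraMap k F c ≠ 0 := by
    intro c h
    apply hx
    rw [sub_eq_zero.1 h]
    exact isAlgebraic_algebraMap c
  have hC1 : ∀ z : k, pl.val (algebraMap F Ω (algebraMap k F z)) (algebraMap L C (algebraMap k L z)) := by
    intro z
    rw [← IsScalarTower.algebraMap_apply, ← IsScalarTower.algebraMap_apply]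
    exact Plc.val_alg z
  set ξ : Ω := algebraMap F Ω (x - algebraMap k F E) with hξ
  have hξ0 : ξ ≠ 0 := (_root_.map_ne_zero _).2 (hx0 E)
  -- the value of the function, from the value of `X 0`
  have hG' : algebraMap F Ω ((x - algebraMap k F E - algebraMap k F μ) /
      (x - algebraMap k F E - algebraMap k F μ')) =
      (1 - algebraMap F Ω (algebraMap k F μ) * ξ⁻¹) / (1 - algebraMap F Ω (algebraMap k F μ') * ξ⁻¹) := by
    have hs : ∀ ν : k, algebraMap F Ω (x - algebraMap k F E - algebraMap k F ν) =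
        ξ - algebraMap F Ω (algebraMap k F ν) := fun ν => by rw [map_sub, hξ]
    rw [map_div₀, hs, hs]
    rw [show (1 : Ω) - algebraMap F Ω (algebraMap k F μ) * ξ⁻¹ =
      (ξ - algebraMap F Ω (algebraMap k F μ)) / ξ by field_simp,
      show (1 : Ω) - algebraMap F Ω (algebraMap k F μ') * ξ⁻¹ =
      (ξ - algebraMap F Ω (algebraMap k F μ')) / ξ by field_simp]
    rw [div_div_div_cancel_right₀ hξ0]
  have hμL : algebraMap k L μ ≠ 0 := (_root_.map_ne_zero _).2 hμ
  have hμL' : algebraMap k L μ' ≠ 0 := (_root_.map_ne_zero _).2 hμ'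
  -- the value `u`
  obtain ⟨u, hu1, hu2, hu3⟩ : ∃ u : Option L, (∀ X₀, u = some X₀ → Chain aL bL cL X₀) ∧
      pl.val (algebraMap F Ω ((x - algebraMap k F E - algebraMap k F μ) /
        (x - algebraMap k F E - algebraMap k F μ')))
        (algebraMap L C (Gam (algebraMap k L μ) (algebraMap k L μ') u)) ∧
      Gam (algebraMap k L μ) (algebraMap k L μ') u ≠ 0 := by
    by_cases hmem : X 0 ∈ pl.W
    · -- finite value: a chain
      have hab : ∀ (z : B) (zL : L), ι z = algebraMap L C zL → pl.val (s.j z) (algebraMap L C zL) := by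
        intro z zL h
        rw [← h]
        exact hpl z
      have hall : ∀ j, X j ∈ pl.W ∧ α j ∈ pl.W ∧ β j ∈ pl.W ∧ γ j ∈ pl.W := by
        have hstep : ∀ j, X j ∈ pl.W → α j ∈ pl.W ∧ β j ∈ pl.W ∧ γ j ∈ pl.W := by
          intro j hj
          obtain ⟨h1, h2, h3, h4⟩ := hH j
          refine ⟨Plc.mem_of_pow_mem two_pos ?_, Plc.mem_of_pow_mem two_pos ?_,
            Plc.mem_of_pow_mem two_pos ?_⟩
          · rw [h1]; exact sub_mem hj (hpl a).mem
          · rw [h2]; exact sub_mem hj (hpl b).mem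
          · rw [h3]; exact sub_mem hj (hpl c).mem
        intro j
        induction j with
        | zero => exact ⟨hmem, hstep 0 hmem⟩
        | succ j ih =>
          obtain ⟨i1, i2, i3, i4⟩ := ih
          obtain ⟨h1, h2, h3, h4⟩ := hH j
          have h5 : X (j + 1) ∈ pl.W := by
            rw [h4]
            exact add_mem (add_mem (add_mem i1 (mul_mem i2 i3)) (mul_mem i3 i4)) (mul_mem i4 i2)
          exact ⟨h5, hstep _ h5⟩
      have hS : ∀ z ∈ (insert r (T : Set B)), ∃ q : L, ι z = algebraMap L C q := by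
        intro z hz
        rcases hz with rfl | hz
        · exact hr
        · exact hTL z hz
      have hval : ∀ w : Ω, w ∈ pl.W → (∀ g : B ≃ₐ[k] B, (∀ z ∈ T, g z = z) → g r = r →
          s.s g w = w) → ∃ q : L, pl.val w (algebraMap L C q) := by
        intro w hw h
        obtain ⟨c', hc'⟩ := Plc.val_of_mem (pl := pl) hw
        obtain ⟨q, hq⟩ := hev (insert r (T : Set B)) hS w (fun g hg => h g
          (fun z hz => hg z (Set.mem_insert_of_mem _ hz)) (hg r (Set.mem_insert _ _))) c' hc'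
        exact ⟨q, by rw [← hq]; exact hc'⟩
      choose Xv hXv using fun j => hval (X j) (hall j).1 (fun g h1 h2 => (hfix g h1 h2 j).1)
      choose αv hαv using fun j => hval (α j) (hall j).2.1 (fun g h1 h2 => (hfix g h1 h2 j).2.1)
      choose βv hβv using fun j => hval (β j) (hall j).2.2.1 (fun g h1 h2 => (hfix g h1 h2 j).2.2.1)
      choose γv hγv using fun j => hval (γ j) (hall j).2.2.2 (fun g h1 h2 => (hfix g h1 h2 j).2.2.2)
      have hinj : Function.Injective (algebraMap L C) := (algebraMap L C).injective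
      have hch : Halves aL bL cL Xv αv βv γv := by
        intro j
        obtain ⟨h1, h2, h3, h4⟩ := hH j
        refine ⟨hinj ?_, hinj ?_, hinj ?_, hinj ?_⟩
        · rw [map_pow, map_sub]
          have h5 := (hαv j).pow 2
          rw [h1] at h5
          exact h5.unique ((hXv j).sub (hab a aL ha))
        · rw [map_pow, map_sub]
          have h5 := (hβv j).pow 2
          rw [h2] at h5
          exact h5.unique ((hXv j).sub (hab b bL hb))
        · rw [map_pow, map_sub]
          have h5 := (hγv j).pow 2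
          rw [h3] at h5
          exact h5.unique ((hXv j).sub (hab c cL hc))
        · rw [map_add, map_add, map_add, map_mul, map_mul, map_mul]
          have h5 := hXv (j + 1)
          rw [h4] at h5
          exact h5.unique ((((hXv j).add ((hαv j).mul (hβv j))).add ((hβv j).mul (hγv j))).add
            ((hγv j).mul (hαv j)))
      have hchain : Chain aL bL cL (Xv 0) := ⟨Xv, αv, βv, γv, rfl, hch⟩
      obtain ⟨hn1, hn2⟩ := hne _ hchain
      refine ⟨some (Xv 0), fun X₀ h => ?_, ?_, ?_⟩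
      · rw [Option.some.injEq] at h
        rw [← h]
        exact hchain
      · rw [hG']
        have hX0' : X 0 = ξ⁻¹ := by rw [hX0, map_inv₀]
        have h1 : ∀ ν : k, pl.val (1 - algebraMap F Ω (algebraMap k F ν) * ξ⁻¹)
            (algebraMap L C (1 - algebraMap k L ν * Xv 0)) := by
          intro ν
          rw [map_sub, map_one, map_mul, ← hX0']
          exact Plc.val_one.sub ((hC1 ν).mul (hXv 0))
        change pl.val _ (algebraMap L C ((1 - algebraMap k L μ * Xv 0) / (1 - algebraMap k L μ' * Xv 0)))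
        rw [map_div₀, div_eq_mul_inv, div_eq_mul_inv]
        exact (h1 μ).mul ((h1 μ').inv ((_root_.map_ne_zero _).2 hn2))
      · exact div_ne_zero hn1 hn2
    · -- infinite value
      refine ⟨none, fun X₀ h => absurd h (by simp), ?_, div_ne_zero hμL hμL'⟩
      have h0 : pl.val ξ 0 := by
        have h1 := Plc.val_inv_of_notMem (pl := pl) hmem
        rwa [hX0, map_inv₀, inv_inv] at h1
      have h1 : ∀ ν : k, pl.val (algebraMap F Ω (x - algebraMap k F E - algebraMap k F ν))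
          (algebraMap L C (- algebraMap k L ν)) := by
        intro ν
        rw [map_sub, ← hξ, map_neg, ← zero_sub]
        exact h0.sub (hC1 ν)
      rw [map_div₀]
      change pl.val _ (algebraMap L C (algebraMap k L μ / algebraMap k L μ'))
      rw [show algebraMap k L μ / algebraMap k L μ' = (-algebraMap k L μ) * (-algebraMap k L μ')⁻¹ by
        rw [inv_neg, neg_mul_neg, div_eq_mul_inv], map_mul, map_inv₀, div_eq_mul_inv]
      exact (h1 μ).mul ((h1 μ').inv ((_root_.map_ne_zero _).2 (neg_ne_zero.2 hμL')))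
  refine ⟨u, hu1, ?_⟩
  -- the class
  have hC'v : pl.val (algebraMap k Ω C') (algebraMap L C (algebraMap k L C')) := by
    rw [← IsScalarTower.algebraMap_apply]
    exact Plc.val_alg C'
  have hC'0 : algebraMap L C (algebraMap k L C') ≠ 0 := by
    rw [← IsScalarTower.algebraMap_apply]
    exact (_root_.map_ne_zero _).2 hC'
  have hw1 : pl.val (w' ^ n') (algebraMap L C (Gam (algebraMap k L μ) (algebraMap k L μ') u) *
      (algebraMap L C (algebraMap k L C'))⁻¹) := by
    have h1 := hu2.mul (hC'v.inv hC'0)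
    rw [hG] at h1
    have h2 : algebraMap k Ω C' * w' ^ n' * (algebraMap k Ω C')⁻¹ = w' ^ n' := by
      have : algebraMap k Ω C' ≠ 0 := (_root_.map_ne_zero _).2 hC'
      field_simp
    rwa [h2] at h1
  have hw2 : w' ∈ pl.W := Plc.mem_of_pow_mem (by omega) hw1.mem
  obtain ⟨ω', hω'⟩ := Plc.val_of_mem (pl := pl) hw2
  obtain ⟨ω, hω⟩ := hev ∅ (fun z hz => absurd hz (Set.notMem_empty z)) w' (fun g _ => hw' g) ω' hω'
  have h3 : ω' ^ n' = _ := (hω'.pow n').unique hw1
  have h4 : Gam (algebraMap k L μ) (algebraMap k L μ') u = algebraMap k L C' * ω ^ n' := by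
    apply (algebraMap L C).injective
    rw [map_mul, map_pow, ← hω, h3]
    field_simp
  refine ⟨ω, ?_, h4, hu3⟩
  rintro rfl
  rw [zero_pow (by omega), mul_zero] at h4
  exact hu3 h4

end Pool.Agent.Zk12.HT
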