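import Mathlib
import Pool.Agent.Zk12.HT.Con1

/-!
# Project HT, part S: the classes are constant
-/

set_option autoImplicit false
set_option linter.all false

open Polynomial FF

namespace Pool.Agent.Zk12.HT

open Pool.Agent.TH954 Pool.Agent.Zk12.FG Pool.Agent.Y157.PS

/-- the end of the counting argument -/
theorem count_end {N D R ε : ℕ} {v vP vQ : ℕ} {κ κP κQ a b g : ℝ} {J i i' : ℕ} {z z' : ℤ}
    (hD : 1 ≤ D) (hε : ε = 1 ∨ ε = 2) (hκ : 0 < κ) (hκP : 0 < κP) (hκQ : 0 < κQ)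
    (ha : 0 < a) (hb : 0 < b) (hlt : i < i') (hi' : i' ≤ R + 1)
    (h1 : g = (((1 / 2 : ℝ) ^ (ε * (J + i)) * κ) ^ vP * κP) /
      (((1 / 2 : ℝ) ^ (ε * (J + i)) * κ) ^ vQ * κQ) * a ^ (N * (2 * D * (R + 1).factorial)))
    (h2 : g = (((1 / 2 : ℝ) ^ (ε * (J + i')) * κ) ^ vP * κP) /
      (((1 / 2 : ℝ) ^ (ε * (J + i')) * κ) ^ vQ * κQ) * b ^ (N * (2 * D * (R + 1).factorial)))
    (ha' : a ^ D = (2 : ℝ) ^ z) (hb' : b ^ D = (2 : ℝ) ^ z') :
    (N : ℤ) ∣ (vP : ℤ) - vQ := by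
  set n' := N * (2 * D * (R + 1).factorial) with hn'
  set q : ℝ := (1 / 2 : ℝ) ^ (ε * (J + i)) * κ with hq
  set q' : ℝ := (1 / 2 : ℝ) ^ (ε * (J + i')) * κ with hq'
  have hq0 : 0 < q := by positivity
  have hq'0 : 0 < q' := by positivity
  have hqq : q = q' * (2 : ℝ) ^ (((i' - i : ℕ) : ℤ) * ε) := by
    rw [hq, hq']
    have h3 : ε * (J + i') = ε * (J + i) + (i' - i) * ε := by
      have : i' = i + (i' - i) := by omega
      conv_lhs => rw [this]
      ring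
    rw [h3, pow_add]
    have h4 : (1 / 2 : ℝ) ^ ((i' - i) * ε) * (2 : ℝ) ^ (((i' - i : ℕ) : ℤ) * ε) = 1 := by
      rw [← Nat.cast_mul, zpow_natCast, ← mul_pow]
      norm_num
    calc (1 / 2 : ℝ) ^ (ε * (J + i)) * κ = (1 / 2 : ℝ) ^ (ε * (J + i)) * κ * 1 := by ring
      _ = (1 / 2 : ℝ) ^ (ε * (J + i)) * κ * ((1 / 2 : ℝ) ^ ((i' - i) * ε) *
          (2 : ℝ) ^ (((i' - i : ℕ) : ℤ) * ε)) := by rw [h4]
      _ = _ := by ring
  -- the equality of norms
  have h5 : q ^ ((vP : ℤ) - vQ) * a ^ n' = q' ^ ((vP : ℤ) - vQ) * b ^ n' := by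
    rw [zpow_sub₀ hq0.ne', zpow_sub₀ hq'0.ne', zpow_natCast, zpow_natCast, zpow_natCast,
      zpow_natCast]
    have h6 : q ^ vP * κP / (q ^ vQ * κQ) * a ^ n' = q' ^ vP * κP / (q' ^ vQ * κQ) * b ^ n' := by
      rw [← h1, ← h2]
    have h7 : (q ^ vP / q ^ vQ * a ^ n') * (κP / κQ) = (q' ^ vP / q' ^ vQ * b ^ n') * (κP / κQ) := by
      have e1 : (q ^ vP / q ^ vQ * a ^ n') * (κP / κQ) = q ^ vP * κP / (q ^ vQ * κQ) * a ^ n' := by
        field_simp
      have e2 : (q' ^ vP / q' ^ vQ * b ^ n') * (κP / κQ) =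
          q' ^ vP * κP / (q' ^ vQ * κQ) * b ^ n' := by
        field_simp
      rw [e1, e2, h6]
    exact mul_right_cancel₀ (div_pos hκP hκQ).ne' h7
  have h8 : (2 : ℝ) ^ (((i' - i : ℕ) : ℤ) * ε * ((vP : ℤ) - vQ)) * a ^ n' = b ^ n' := by
    rw [hqq, mul_zpow, ← zpow_mul, mul_assoc] at h5
    exact mul_left_cancel₀ (zpow_ne_zero _ hq'0.ne') h5
  have h9 : (2 : ℝ) ^ (((i' - i : ℕ) : ℤ) * ε * ((vP : ℤ) - vQ) * D + z * n') =
      (2 : ℝ) ^ (z' * n') := by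
    have h10 := congrArg (· ^ D) h8
    simp only [mul_pow] at h10
    have ea : (a ^ n') ^ D = ((2 : ℝ) ^ z) ^ n' := by rw [pow_right_comm, ha']
    have eb : (b ^ n') ^ D = ((2 : ℝ) ^ z') ^ n' := by rw [pow_right_comm, hb']
    rw [ea, eb] at h10
    rw [zpow_add₀ two_ne_zero, zpow_mul _ _ (D : ℤ), zpow_natCast, zpow_mul _ z (n' : ℤ),
      zpow_natCast, zpow_mul _ z' (n' : ℤ), zpow_natCast]
    exact h10
  have h11 := zpow_right_injective₀ (a := (2 : ℝ)) two_pos (by norm_num) h9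
  refine arith N D R ε _ (z' - z) i i' hD hε hlt hi' ?_
  rw [← hn']
  linear_combination h11

/-- rational functions with congruent classes have congruent orders -/
theorem order_congr {k₁ k A : Type} [Field k₁] [Field k] [Field A] [Algebra k₁ k] [Algebra k₁ A]
    {t₀ : k} (ht : Transcendental k₁ t₀) (hgen : IntermediateField.adjoin k₁ {t₀} = ⊤)
    {P Q P' Q' : k₁[X]} (hP : P ≠ 0) (hQ : Q ≠ 0) (hP' : P' ≠ 0) (hQ' : Q' ≠ 0)
    {C C' d : k} (hC : C = aeval t₀ P / aeval t₀ Q) (hC' : C' = aeval t₀ P' / aeval t₀ Q')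
    (hd0 : d ≠ 0) {N : ℕ} (h : C = C' * d ^ N) (ρ : A) :
    (N : ℤ) ∣ (((P.map (algebraMap k₁ A)).rootMultiplicity ρ : ℤ) -
      ((Q.map (algebraMap k₁ A)).rootMultiplicity ρ : ℤ)) -
      (((P'.map (algebraMap k₁ A)).rootMultiplicity ρ : ℤ) -
      ((Q'.map (algebraMap k₁ A)).rootMultiplicity ρ : ℤ)) := by
  have hinj : Function.Injective (aeval t₀ : k₁[X] →ₐ[k₁] k) :=
    transcendental_iff_injective.1 ht
  have hne : ∀ g : k₁[X], g ≠ 0 → aeval t₀ g ≠ 0 := fun g hg h0 =>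
    hg (hinj (by rw [h0, map_zero]))
  obtain ⟨D₁, E₁, hD₁, hE₁, -, -, hd⟩ := ratfun hgen d hd0
  have h1 : P * Q' * E₁ ^ N = P' * Q * D₁ ^ N := by
    apply hinj
    have e1 := hne _ hQ
    have e2 := hne _ hQ'
    have e3 := hne _ hE₁
    rw [hC, hC', hd, div_pow] at h
    simp only [map_mul, map_pow]
    have e4 := pow_ne_zero N e3
    field_simp at h
    linear_combination h
  have h2 := congrArg (fun g : k₁[X] => ((g.map (algebraMap k₁ A)).rootMultiplicity ρ)) h1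
  simp only [Polynomial.map_mul, Polynomial.map_pow] at h2
  have hm : ∀ g : k₁[X], g ≠ 0 → g.map (algebraMap k₁ A) ≠ 0 := fun g hg =>
    (Polynomial.map_ne_zero_iff (algebraMap k₁ A).injective).2 hg
  have hpow : ∀ (g : A[X]), g ≠ 0 → ∀ m : ℕ, (g ^ m).rootMultiplicity ρ = m * g.rootMultiplicity ρ := by
    intro g hg m
    induction m with
    | zero => simp
    | succ m ih =>
      rw [pow_succ, rootMultiplicity_mul (mul_ne_zero (pow_ne_zero _ hg) hg), ih]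
      ring
  rw [rootMultiplicity_mul (mul_ne_zero (mul_ne_zero (hm _ hP) (hm _ hQ')) (pow_ne_zero _ (hm _ hE₁))),
    rootMultiplicity_mul (mul_ne_zero (hm _ hP) (hm _ hQ')),
    rootMultiplicity_mul (mul_ne_zero (mul_ne_zero (hm _ hP') (hm _ hQ)) (pow_ne_zero _ (hm _ hD₁))),
    rootMultiplicity_mul (mul_ne_zero (hm _ hP') (hm _ hQ)), hpow _ (hm _ hE₁), hpow _ (hm _ hD₁)] at h2
  refine ⟨((D₁.map (algebraMap k₁ A)).rootMultiplicity ρ : ℤ) -
    ((E₁.map (algebraMap k₁ A)).rootMultiplicity ρ : ℤ), ?_⟩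
  have h3 : (((P.map (algebraMap k₁ A)).rootMultiplicity ρ +
    (Q'.map (algebraMap k₁ A)).rootMultiplicity ρ +
    N * (E₁.map (algebraMap k₁ A)).rootMultiplicity ρ : ℕ) : ℤ) = _ := congrArg _ h2
  push_cast at h3
  linear_combination h3

/-- the values of rational functions at an embedding -/
theorem emb_val {k₁ k C : Type} [Field k₁] [Field k] [Field C] [Algebra k₁ k] (φ : k →+* C)
    (t₀ : k) (P : k₁[X]) :
    φ (aeval t₀ P) = (P.map (φ.comp (algebraMap k₁ k))).eval (φ t₀) := by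
  rw [aeval_def, hom_eval₂, eval_map]

/-- the image of the embedding -/
theorem emb_mem {k₁ k C : Type} [Field k₁] [Field k] [Field C] [Algebra k₁ k] (φ : k →+* C)
    {t₀ : k} (hgen : IntermediateField.adjoin k₁ {t₀} = ⊤) (L : Subfield C)
    (h1 : ∀ z : k₁, φ (algebraMap k₁ k z) ∈ L) (h2 : φ t₀ ∈ L) (z : k) : φ z ∈ L := by
  have h3 : IntermediateField.adjoin k₁ {t₀} ≤
      (L.comap φ).toIntermediateField (fun z => h1 z) := by
    rw [IntermediateField.adjoin_le_iff]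
    rintro _ rfl
    exact h2
  rw [hgen] at h3
  exact h3 (IntermediateField.mem_top (x := z))

end Pool.Agent.Zk12.HT
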