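import Mathlib
import Pool.Agent.Zk12.HT.Con2

/-!
# Project HT, part S: the local data
-/

set_option autoImplicit false
set_option linter.all false

open Polynomial FF

namespace Pool.Agent.Zk12.HT

open Pool.Agent.TH954 Pool.Agent.Zk12.FG Pool.Agent.Y157.PS

theorem local_data (hKOEL : S_KOEL) (hEVAL : S_EVAL) {k₁ k F Ω B : Type} [Field k₁] [Field k]
    [CharZero k] [Field F] [Field Ω] [Field B] [Algebra k₁ k] [Algebra k F] [Algebra F Ω]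
    [Algebra k Ω] [Algebra k B] [IsScalarTower k F Ω] [IsAlgClosure F Ω] [IsAlgClosure k B]
    (s : GalSection k F Ω B) {t₀ : k} (hgen : IntermediateField.adjoin k₁ {t₀} = ⊤)
    (L : IntermediateField ℚ_[2] (PadicAlgCl 2)) (hL : FiniteDimensional ℚ_[2] L)
    (ι : B →+* PadicAlgCl 2) (h1 : ∀ z : k₁, ι (algebraMap k B (algebraMap k₁ k z)) ∈ L)
    (T : Finset B) (a b c r : B) (hr : r ^ 2 = algebraMap k B t₀) (hrL : ι r ∈ L)
    (hTL : ∀ z ∈ T, ι z ∈ L) (aL bL cL : L) (ha : ι a = aL) (hb : ι b = bL) (hc : ι c = cL)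
    (x : F) (E : k) (hx : Transcendental k x) (X α β γ : ℕ → Ω)
    (hX0 : X 0 = algebraMap F Ω (x - algebraMap k F E)⁻¹)
    (hH : Halves (s.j a) (s.j b) (s.j c) X α β γ)
    (hfix : ∀ g : B ≃ₐ[k] B, (∀ z ∈ T, g z = z) → g r = r →
      ∀ j, s.s g (X j) = X j ∧ s.s g (α j) = α j ∧ s.s g (β j) = β j ∧ s.s g (γ j) = γ j)
    (m m' : ℕ)
    (hne : ∀ X₀ : L, Chain aL bL cL X₀ → 1 - 2 ^ m * X₀ ≠ 0 ∧ 1 - 2 ^ m' * X₀ ≠ 0)
    (C' : k) (hC' : C' ≠ 0) (w' : Ω) (hw' : ∀ g, s.s g w' = w') (n' : ℕ) (hn' : 1 ≤ n')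
    (hG : algebraMap F Ω ((x - algebraMap k F E - algebraMap k F (2 ^ m)) /
      (x - algebraMap k F E - algebraMap k F (2 ^ m'))) = algebraMap k Ω C' * w' ^ n') :
    ∃ u : Option L, (∀ X₀, u = some X₀ → Chain aL bL cL X₀) ∧ ∃ ω : L, ω ≠ 0 ∧
      Gam ((2 : L) ^ m) ((2 : L) ^ m') u ≠ 0 ∧
      ((Gam ((2 : L) ^ m) ((2 : L) ^ m') u : L) : PadicAlgCl 2) =
        ι (algebraMap k B C') * (ω : PadicAlgCl 2) ^ n' := by
  have ht₀L : ι (algebraMap k B t₀) ∈ L := by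
    rw [← hr, map_pow]
    exact pow_mem hrL 2
  have hmem : ∀ z : k, ι (algebraMap k B z) ∈ L :=
    emb_mem (ι.comp (algebraMap k B)) hgen L.toSubfield h1 ht₀L
  let φ : k →+* L := (ι.comp (algebraMap k B)).codRestrict L.toSubfield.toSubring hmem
  letI : Algebra k L := φ.toAlgebra
  letI : Algebra k (PadicAlgCl 2) := (ι.comp (algebraMap k B)).toAlgebra
  haveI : IsScalarTower k L (PadicAlgCl 2) := IsScalarTower.of_algebraMap_eq fun z => rfl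
  haveI : IsAlgClosure L (PadicAlgCl 2) :=
    ⟨inferInstance, Algebra.IsAlgebraic.tower_top (K := ℚ_[2]) L⟩
  haveI : FiniteDimensional ℚ_[2] L := hL
  let ιB : B →ₐ[k] PadicAlgCl 2 := { ι with commutes' := fun z => rfl }
  have h2k : ∀ m : ℕ, (2 : k) ^ m ≠ 0 := fun m => pow_ne_zero _ two_ne_zero
  have h2L : ∀ m : ℕ, algebraMap k L ((2 : k) ^ m) = 2 ^ m := fun m => by
    rw [map_pow, map_ofNat]
  obtain ⟨u, hu, ω, hω, hGam, hGam0⟩ := local_step hKOEL hEVAL 2 L k F Ω B (PadicAlgCl 2) s ιB T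
    a b c r aL bL cL ha hb hc (fun z hz => ⟨⟨ι z, hTL z hz⟩, rfl⟩) ⟨⟨ι r, hrL⟩, rfl⟩ x E hx X α β γ
    hX0 hH hfix (2 ^ m) (2 ^ m') (h2k m) (h2k m') (by rw [h2L, h2L]; exact hne) C' hC' w' hw' n' hn'
    hG
  rw [h2L, h2L] at hGam hGam0
  refine ⟨u, hu, ω, hω, hGam0, ?_⟩
  have h3 := congrArg (algebraMap L (PadicAlgCl 2)) hGam
  rw [map_mul, map_pow] at h3
  exact h3

end Pool.Agent.Zk12.HT
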