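import Mathlib
import Pool.Agent.Zk12.HT.Con4

/-!
# Project HT, part S: the classes are constant
-/

set_option autoImplicit false
set_option linter.all false

open Polynomial FF

namespace Pool.Agent.Zk12.HT

open Pool.Agent.TH954 Pool.Agent.Zk12.FG Pool.Agent.Y157.PS

/-- **part S**, from the parts B, C, D, E, K, M, P1, P2, Q -/
theorem con (hTOW : S_TOW) (hELL : S_ELL) (hKOEL : S_KOEL) (hEVAL : S_EVAL) (hKUM : S_KUMM)
    (hEMB : S_EMB) (hPOWR : S_POWR) (hNORM : S_NORM) (hDISC : S_DISC) : S_CON := by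
  intro n k₁ k F Ω B _ _ _ _ _ _ _ _ _ _ _ _ _ _ t t₀ f x y hS s
  letI : Algebra k₁ B := ((algebraMap k B).comp (algebraMap k₁ k)).toAlgebra
  haveI : IsScalarTower k₁ k B := IsScalarTower.of_algebraMap_eq fun _ => rfl
  haveI : CharZero k₁ := algebraRat.charZero k₁
  haveI : CharZero k := charZero_of_injective_algebraMap (algebraMap k₁ k).injective
  haveI : CharZero B := charZero_of_injective_algebraMap (algebraMap k B).injective
  haveI : IsAlgClosed B := IsAlgClosure.isAlgClosed k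
  haveI : CharZero F := charZero_of_injective_algebraMap (algebraMap k F).injective
  obtain ⟨e, T, a, b, c, r, X, α, β, γ, hfe, hT, haT, hbT, hcT, hab, hbc, hac, hr, hX0, hH, hfix⟩ :=
    hTOW n k₁ k F Ω B t t₀ f x y hS s
  obtain ⟨ι₀, η, hη, hι₀, hι⟩ := hEMB n k₁ k B t t₀ hS.rat hS.trans hS.gen
  have hmA : ∀ z ∈ T, z ∈ algebraicClosure k₁ B := fun z hz => mem_algebraicClosure_iff.2 (hT z hz)
  set Rb : ℝ := max ‖ι₀ ⟨a, hmA a haT⟩‖ (max ‖ι₀ ⟨b, hmA b hbT⟩‖ ‖ι₀ ⟨c, hmA c hcT⟩‖) with hRb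
  have hRb0 : 0 ≤ Rb := le_trans (norm_nonneg _) (le_max_left _ _)
  obtain ⟨m₀, hm₀⟩ := exists_pow_lt_of_lt_one (show (0 : ℝ) < (1 / 2) ^ 10 / (Rb + 1) by positivity)
    (y := (1 / 2 : ℝ)) (by norm_num)
  have hm₁ : ∀ m, m₀ ≤ m → (1 / 2 : ℝ) ^ m * Rb < (1 / 2) ^ 10 := by
    intro m hm
    have h1 : (1 / 2 : ℝ) ^ m < (1 / 2) ^ 10 / (Rb + 1) :=
      lt_of_le_of_lt (pow_le_pow_of_le_one (by norm_num) (by norm_num) hm) hm₀
    rw [lt_div_iff₀ (by positivity)] at h1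
    have h2 : (0 : ℝ) < (1 / 2) ^ m := by positivity
    nlinarith
  refine ⟨e, m₀, fun m m' hm hm' N hN => ?_⟩
  set E : k := algebraMap k₁ k e with hE
  have hx := hS.x_trans
  have hx0 : ∀ z : k, x - algebraMap k F z ≠ 0 := by
    intro z h
    apply hx
    rw [sub_eq_zero.1 h]
    exact isAlgebraic_algebraMap z
  have hform : ∀ M : ℕ, x - algebraMap k F (algebraMap k₁ k (e + 2 ^ M)) =
      x - algebraMap k F E - algebraMap k F (2 ^ M) := by
    intro M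
    rw [map_add (algebraMap k₁ k), map_pow (algebraMap k₁ k), map_ofNat (algebraMap k₁ k),
      map_add, sub_sub]
  rw [hform, hform]
  have hG0 : algebraMap F Ω ((x - algebraMap k F E - algebraMap k F (2 ^ m)) /
      (x - algebraMap k F E - algebraMap k F (2 ^ m'))) ≠ 0 := by
    rw [Ne, _root_.map_eq_zero]
    rw [sub_sub, ← map_add, sub_sub, ← map_add]
    exact div_ne_zero (hx0 _) (hx0 _)
  obtain ⟨C₀, w₀, hC₀, hw₀0, hw₀, hG⟩ := (hKUM k F Ω B s N hN).1 _ hG0 (fun g => (s.s g).commutes _)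
  obtain ⟨P, Q, hP, hQ, hQt, hPt, hPQ⟩ := ratfun hS.gen C₀ hC₀
  obtain ⟨h, D, E', hh, hD, hE', hPE⟩ := hPOWR k₁ (algebraicClosure k₁ B) N hN P Q hP hQ
    (key hELL hKOEL hEVAL hKUM hNORM hDISC s hS.trans hS.gen x hx E T a b c r X α β γ hmA haT hbT
      hcT hab hbc hac hr hX0 hH hfix ι₀ η hη hι₀ (fun ς j hj => hι r hr ς j hj) m m' (hm₁ m hm)
      (hm₁ m' hm') N hN C₀ hC₀ w₀ hw₀0 hw₀ hG P Q hP hQ hPQ)
  have hinj : Function.Injective (aeval t₀ : k₁[X] →ₐ[k₁] k) :=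
    transcendental_iff_injective.1 hS.trans
  have hne : ∀ g : k₁[X], g ≠ 0 → aeval t₀ g ≠ 0 := fun g hg h0 =>
    hg (hinj (by rw [h0, map_zero]))
  have h1 : C₀ = algebraMap k₁ k h * (aeval t₀ D / aeval t₀ E') ^ N := by
    have h2 := congrArg (aeval t₀ : k₁[X] → k) hPE
    simp only [map_mul, map_pow, aeval_C] at h2
    have h3 := pow_ne_zero N (hne _ hE')
    rw [hPQ, div_pow]
    field_simp
    linear_combination h2
  refine ⟨h, algebraMap k Ω (aeval t₀ D / aeval t₀ E') * w₀, hh, fun g => ?_, ?_⟩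
  · rw [map_mul, hw₀, IsScalarTower.algebraMap_apply k F Ω, (s.s g).commutes]
  · rw [hG, mul_pow, h1, map_mul, map_pow]
    ring

end Pool.Agent.Zk12.HT
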