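import Mathlib
import Pool.Agent.Zk12.HT.Stm
import Pool.Agent.TH954.SBir

/-!
# Birational sections of the generic quadratic twist of an arbitrary hyperelliptic curve over an
arbitrary finitely generated field: statements of the parts (project HT, second stage)

`k₁` is any field of characteristic zero which is finitely generated over `ℚ`, `k = k₁(t_0)`,
`f ∈ k₁[x]` separable of even degree at least 4, `X : t_0 y² = f(x)`.
-/

set_option autoImplicit false
set_option linter.all false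

open Polynomial FF IsDedekindDomain NumberField

namespace Pool.Agent.Zk12.HT

open Pool.Agent.TH954 Pool.Agent.Zk12.FG Pool.Agent.Y157.PS

/-- the setting: `k₁` is finitely generated, `k = k₁(t_0)`, `t_0 y² = f(x)` in the field `F`, which is
algebraic over `k(x)` -/
structure SettingF {k₁ k F : Type} [Field k₁] [CharZero k₁] [Field k] [Field F]
    [Algebra k₁ k] [Algebra k F] (t₀ : k) (f : k₁[X]) (x y : F) : Prop where
  fg : (⊤ : IntermediateField ℚ k₁).FG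
  trans : Transcendental k₁ t₀
  gen : IntermediateField.adjoin k₁ {t₀} = ⊤
  sep : f.Separable
  even : Even f.natDegree
  four : 4 ≤ f.natDegree
  x_trans : Transcendental k x
  alg : Algebra.IsAlgebraic (IntermediateField.adjoin k {x}) F
  eqn : algebraMap k F t₀ * y ^ 2 = aeval x (f.map (algebraMap k₁ k))

/-- **part B (tower)** -/
def S_TOWF : Prop := ∀ (k₁ k F Ω B : Type) [Field k₁] [CharZero k₁] [Field k] [Field F] [Field Ω]
  [Field B] [Algebra k₁ k] [Algebra k F] [Algebra F Ω] [Algebra k Ω] [Algebra k B]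
  [Algebra k₁ B] [IsScalarTower k₁ k B]
  [IsScalarTower k F Ω] [IsAlgClosure F Ω] [IsAlgClosure k B] (t₀ : k) (f : k₁[X])
  (x y : F), SettingF t₀ f x y → ∀ s : GalSection k F Ω B,
  ∃ (e : k₁) (T : Finset B) (a b c r : B) (X α β γ : ℕ → Ω), f.eval e = 0 ∧
    (∀ z ∈ T, IsAlgebraic k₁ z) ∧ a ∈ T ∧ b ∈ T ∧ c ∈ T ∧ a ≠ b ∧ b ≠ c ∧ a ≠ c ∧
    r ^ 2 = algebraMap k B t₀ ∧
    X 0 = algebraMap F Ω (x - algebraMap k F (algebraMap k₁ k e))⁻¹ ∧
    Halves (s.j a) (s.j b) (s.j c) X α β γ ∧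
    ∀ g : B ≃ₐ[k] B, (∀ z ∈ T, g z = z) → g r = r →
      ∀ j, s.s g (X j) = X j ∧ s.s g (α j) = α j ∧ s.s g (β j) = β j ∧ s.s g (γ j) = γ j

/-- **part M (embeddings)** -/
def S_EMBF : Prop := ∀ (k₁ k B : Type) [Field k₁] [CharZero k₁] [Field k] [Field B]
  [Algebra k₁ k] [Algebra k B] [Algebra k₁ B] [IsScalarTower k₁ k B]
  [IsAlgClosure k B] (t₀ : k), (⊤ : IntermediateField ℚ k₁).FG → Transcendental k₁ t₀ →
  IntermediateField.adjoin k₁ {t₀} = ⊤ →
  ∃ (L₀ : IntermediateField ℚ_[2] (PadicAlgCl 2)) (ι₀ : algebraicClosure k₁ B →+* PadicAlgCl 2)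
    (η : ℚ_[2]), FiniteDimensional ℚ_[2] L₀ ∧ ‖η‖ = 1 ∧
    (∀ z : k₁, ι₀ (algebraMap k₁ _ z) ∈ L₀) ∧
    ∀ (r : B), r ^ 2 = algebraMap k B t₀ → ∀ (ς : algebraicClosure k₁ B) (j : ℕ), 1 ≤ j →
      ∃ ι : B →+* PadicAlgCl 2, (∀ z : algebraicClosure k₁ B, ι z = ι₀ z) ∧
        ι r = ι₀ ς + 2 ^ j * algebraMap ℚ_[2] (PadicAlgCl 2) η

/-- **part S (constant classes)** -/
def S_CONF : Prop := ∀ (k₁ k F Ω B : Type) [Field k₁] [CharZero k₁] [Field k] [Field F] [Field Ω]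
  [Field B] [Algebra k₁ k] [Algebra k F] [Algebra F Ω] [Algebra k Ω] [Algebra k B]
  [IsScalarTower k F Ω] [IsAlgClosure F Ω] [IsAlgClosure k B] (t₀ : k) (f : k₁[X])
  (x y : F), SettingF t₀ f x y → ∀ s : GalSection k F Ω B,
  ∃ (e : k₁) (m₀ : ℕ), ∀ m m' : ℕ, m₀ ≤ m → m₀ ≤ m' → ∀ N : ℕ, 1 ≤ N → ∃ (h : k₁) (w : Ω), h ≠ 0 ∧
    (∀ g, s.s g w = w) ∧
    algebraMap F Ω ((x - algebraMap k F (algebraMap k₁ k (e + 2 ^ m))) /
      (x - algebraMap k F (algebraMap k₁ k (e + 2 ^ m')))) =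
      algebraMap k Ω (algebraMap k₁ k h) * w ^ N

/-- **part O (obstruction)** for an arbitrary finitely generated field `k`: for every finite stable set
of irrational elements; the number field `F`, its place `w` and the embedding `φ` of `k` in `F_w`
depend on `c` -/
def S_OBSF : Prop := ∀ (k B : Type) [Field k] [CharZero k] [Field B] [Algebra k B]
  [IsAlgClosure k B], (⊤ : IntermediateField ℚ k).FG → ∀ T : Finset B,
  (∀ σ : B ≃ₐ[k] B, ∀ θ ∈ T, σ θ ∈ T) → (∀ θ ∈ T, ∃ σ : B ≃ₐ[k] B, σ θ ≠ θ) →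
    ∃ (l : ℕ) (a : k), 1 ≤ l ∧ ∀ c : k, c ≠ 0 →
      ∃ (F : IntermediateField ℚ (AlgebraicClosure ℚ)) (_ : NumberField F)
      (w : HeightOneSpectrum (𝓞 F)) (φ : k →+* w.adicCompletion F),
      ∀ (C : Type) [Field C] (κ : w.adicCompletion F →+* C) (ι : B →+* C),
        (∀ y : k, ι (algebraMap k B y) = κ (φ y)) → ∀ θ ∈ T, ∀ z : w.adicCompletion F,
        ι (θ - algebraMap k B a) ≠ κ (φ c * z ^ l)

/-- infinitely divisible elements -/
def S_POWF : Prop := ∀ (F : Type) [Field F] [NumberField F] (w : HeightOneSpectrum (𝓞 F))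
  (u : w.adicCompletion F), u ≠ 0 →
  (∀ m : ℕ, 0 < m → ∃ z : w.adicCompletion F, u = z ^ m) → u = 1

/-- **the theorem over all finitely generated fields** -/
def S_HTF : Prop := ∀ (k₁ k F Ω B : Type) [Field k₁] [CharZero k₁] [Field k] [Field F] [Field Ω]
  [Field B] [Algebra k₁ k] [Algebra k F] [Algebra F Ω] [Algebra k Ω] [Algebra k B]
  [IsScalarTower k F Ω] [IsAlgClosure F Ω] [IsAlgClosure k B] (t₀ : k) (f : k₁[X])
  (x y : F), SettingF t₀ f x y → ∀ s : GalSection k F Ω B,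
  ∃ O : ValuationSubring F, (aeval x (f.map (algebraMap k₁ k)))⁻¹ ∉ O ∧ s.ArisesFrom O ∧
    ∀ O' : ValuationSubring F, s.ArisesFrom O' → O' = O

end Pool.Agent.Zk12.HT
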