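import Mathlib
import Pool.Agent.Zk12.HT.Con4
import Pool.Agent.Zk12.HT.Stm2

/-!
# Project HT, part S: the classes are constant
-/

set_option autoImplicit false
set_option linter.all false

open Polynomial FF

namespace Pool.Agent.Zk12.HT

open Pool.Agent.TH954 Pool.Agent.Zk12.FG Pool.Agent.Y157.PS

/-- the key step: all orders are divisible by `N` -/
theorem keyF (hELL : S_ELL) (hKOEL : S_KOEL) (hEVAL : S_EVAL) (hKUM : S_KUMM)
    (hNORM : S_NORM) (hDISC : S_DISC) {k₁ k F Ω B : Type} [Field k₁] [Field k] [Field F] [Field Ω]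
    [Field B] [CharZero k₁] [CharZero k] [Algebra k₁ k] [Algebra k F] [Algebra F Ω] [Algebra k Ω]
    [Algebra k B] [Algebra k₁ B] [IsScalarTower k₁ k B] [IsScalarTower k F Ω] [IsAlgClosure F Ω]
    [IsAlgClosure k B] (s : GalSection k F Ω B) {t₀ : k} (htr : Transcendental k₁ t₀)
    (hgen : IntermediateField.adjoin k₁ {t₀} = ⊤) (x : F) (hx : Transcendental k x) (E : k)
    (T : Finset B) (a b c r : B) (X α β γ : ℕ → Ω)
    (hmA : ∀ z ∈ T, z ∈ algebraicClosure k₁ B) (haT : a ∈ T) (hbT : b ∈ T) (hcT : c ∈ T)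
    (hab : a ≠ b) (hbc : b ≠ c) (hac : a ≠ c) (hr : r ^ 2 = algebraMap k B t₀)
    (hX0 : X 0 = algebraMap F Ω (x - algebraMap k F E)⁻¹)
    (hH : Halves (s.j a) (s.j b) (s.j c) X α β γ)
    (hfix : ∀ g : B ≃ₐ[k] B, (∀ z ∈ T, g z = z) → g r = r →
      ∀ j, s.s g (X j) = X j ∧ s.s g (α j) = α j ∧ s.s g (β j) = β j ∧ s.s g (γ j) = γ j)
    (L₀ : IntermediateField ℚ_[2] (PadicAlgCl 2)) (hL₀ : FiniteDimensional ℚ_[2] L₀)
    (ι₀ : algebraicClosure k₁ B →+* PadicAlgCl 2) (η : ℚ_[2]) (hη : ‖η‖ = 1)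
    (hι₀ : ∀ z : k₁, ι₀ (algebraMap k₁ _ z) ∈ L₀)
    (hι : ∀ (ς : algebraicClosure k₁ B) (j : ℕ), 1 ≤ j →
      ∃ ι : B →+* PadicAlgCl 2, (∀ z : algebraicClosure k₁ B, ι z = ι₀ z) ∧
        ι r = ι₀ ς + 2 ^ j * algebraMap ℚ_[2] (PadicAlgCl 2) η)
    (m m' : ℕ)
    (hm : (1 / 2 : ℝ) ^ m * max ‖ι₀ ⟨a, hmA a haT⟩‖ (max ‖ι₀ ⟨b, hmA b hbT⟩‖ ‖ι₀ ⟨c, hmA c hcT⟩‖) <
      (1 / 2) ^ 10)
    (hm' : (1 / 2 : ℝ) ^ m' * max ‖ι₀ ⟨a, hmA a haT⟩‖ (max ‖ι₀ ⟨b, hmA b hbT⟩‖ ‖ι₀ ⟨c, hmA c hcT⟩‖) <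
      (1 / 2) ^ 10)
    (N : ℕ) (hN : 1 ≤ N) (C₀ : k) (hC₀ : C₀ ≠ 0) (w₀ : Ω) (hw₀0 : w₀ ≠ 0) (hw₀ : ∀ g, s.s g w₀ = w₀)
    (hG : algebraMap F Ω ((x - algebraMap k F E - algebraMap k F (2 ^ m)) /
      (x - algebraMap k F E - algebraMap k F (2 ^ m'))) = algebraMap k Ω C₀ * w₀ ^ N)
    (P Q : k₁[X]) (hP : P ≠ 0) (hQ : Q ≠ 0) (hPQ : C₀ = aeval t₀ P / aeval t₀ Q)
    (ρ : algebraicClosure k₁ B) :
    (N : ℤ) ∣ ((P.map (algebraMap k₁ (algebraicClosure k₁ B))).rootMultiplicity ρ : ℤ) -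
      ((Q.map (algebraMap k₁ (algebraicClosure k₁ B))).rootMultiplicity ρ : ℤ) := by
  classical
  haveI : IsAlgClosed B := IsAlgClosure.isAlgClosed k
  haveI : CharZero B := charZero_of_injective_algebraMap (algebraMap k B).injective
  haveI : IsAlgClosed (algebraicClosure k₁ B) := IsAlgClosure.isAlgClosed k₁
  obtain ⟨ς, hς⟩ := IsAlgClosed.exists_pow_nat_eq ρ (n := 2) two_pos
  -- the field `L`
  let S : Set (PadicAlgCl 2) := Set.range (fun z : T => ι₀ ⟨z.1, hmA z.1 z.2⟩) ∪ {ι₀ ς}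
  haveI : Finite S := (Set.finite_range _).union (Set.finite_singleton _)
  let L : IntermediateField ℚ_[2] (PadicAlgCl 2) := L₀ ⊔ IntermediateField.adjoin ℚ_[2] S
  haveI hL1 : FiniteDimensional ℚ_[2] (IntermediateField.adjoin ℚ_[2] S) :=
    IntermediateField.finiteDimensional_adjoin fun z _ => (Algebra.IsAlgebraic.isAlgebraic z).isIntegral
  haveI hL : FiniteDimensional ℚ_[2] L := IntermediateField.finiteDimensional_sup _ _
  have hSL : S ⊆ L := fun z hz =>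
    (le_sup_right : _ ≤ L) (IntermediateField.subset_adjoin _ _ hz)
  have hL₀L : L₀ ≤ L := le_sup_left
  have hTL₀ : ∀ (z : B) (hz : z ∈ T), ι₀ ⟨z, hmA z hz⟩ ∈ L := fun z hz =>
    hSL (Or.inl ⟨⟨z, hz⟩, rfl⟩)
  have hςL : ι₀ ς ∈ L := hSL (Or.inr rfl)
  let aL : L := ⟨_, hTL₀ a haT⟩
  let bL : L := ⟨_, hTL₀ b hbT⟩
  let cL : L := ⟨_, hTL₀ c hcT⟩
  have hinjT : ∀ (z z' : B) (hz : z ∈ T) (hz' : z' ∈ T), z ≠ z' →
      (⟨_, hTL₀ z hz⟩ : L) ≠ ⟨_, hTL₀ z' hz'⟩ := by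
    intro z z' hz hz' hne h
    apply hne
    have h1 := congrArg Subtype.val h
    have h2 := ι₀.injective h1
    exact congrArg Subtype.val h2
  letI : NontriviallyNormedField L := NontriviallyNormedField.ofNormNeOne
    ⟨2, two_ne_zero, by
      change ‖(2 : PadicAlgCl 2)‖ ≠ 1
      rw [norm_two]; norm_num⟩
  haveI : ProperSpace L := FiniteDimensional.proper ℚ_[2] L
  have h2L : ‖(2 : L)‖ = 1 / 2 := norm_two
  obtain ⟨hfin, hbd⟩ := hELL L (by rw [h2L]; norm_num) aL bL cL (hinjT a b haT hbT hab)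
    (hinjT b c hbT hcT hbc) (hinjT a c haT hcT hac)
  have hsmall : ∀ M : ℕ, (1 / 2 : ℝ) ^ M * max ‖ι₀ ⟨a, hmA a haT⟩‖ (max ‖ι₀ ⟨b, hmA b hbT⟩‖
      ‖ι₀ ⟨c, hmA c hcT⟩‖) < (1 / 2) ^ 10 → ∀ X₀ : L, Chain aL bL cL X₀ → 1 - 2 ^ M * X₀ ≠ 0 := by
    intro M hM X₀ hX₀ h0
    have h1 := hbd X₀ hX₀
    rw [h2L] at h1
    have h2 : ‖(2 : L) ^ M * X₀‖ = 1 := by
      rw [← sub_eq_zero.1 h0, norm_one]
    rw [norm_mul, norm_pow, h2L] at h2
    have h3 : (1 / 2 : ℝ) ^ 10 * ‖X₀‖ ≤ max ‖ι₀ ⟨a, hmA a haT⟩‖ (max ‖ι₀ ⟨b, hmA b hbT⟩‖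
      ‖ι₀ ⟨c, hmA c hcT⟩‖) := h1
    have h4 : (1 / 2 : ℝ) ^ 10 * ((1 / 2 : ℝ) ^ M * ‖X₀‖) < (1 / 2) ^ 10 := by
      calc (1 / 2 : ℝ) ^ 10 * ((1 / 2 : ℝ) ^ M * ‖X₀‖) =
          (1 / 2 : ℝ) ^ M * ((1 / 2 : ℝ) ^ 10 * ‖X₀‖) := by ring
        _ ≤ (1 / 2 : ℝ) ^ M * max ‖ι₀ ⟨a, hmA a haT⟩‖ (max ‖ι₀ ⟨b, hmA b hbT⟩‖
          ‖ι₀ ⟨c, hmA c hcT⟩‖) := mul_le_mul_of_nonneg_left h3 (by positivity)
        _ < _ := hM
    rw [h2, mul_one] at h4
    exact lt_irrefl _ h4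
  set R : ℕ := hfin.toFinset.card with hR
  obtain ⟨D, hD1, hD⟩ := hDISC 2 L hL
  -- the classes modulo a high power
  have hn'1 : 1 ≤ N * (2 * D * (R + 1).factorial) := by
    have h1 := Nat.factorial_pos (R + 1)
    have h2 : 0 < N * (2 * D * (R + 1).factorial) := by positivity
    omega
  have hx0 : ∀ z : k, x - algebraMap k F z ≠ 0 := by
    intro z h
    apply hx
    rw [sub_eq_zero.1 h]
    exact isAlgebraic_algebraMap z
  have hG0 : algebraMap F Ω ((x - algebraMap k F E - algebraMap k F (2 ^ m)) /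
      (x - algebraMap k F E - algebraMap k F (2 ^ m'))) ≠ 0 := by
    rw [Ne, _root_.map_eq_zero]
    rw [sub_sub, ← map_add, sub_sub, ← map_add]
    exact div_ne_zero (hx0 _) (hx0 _)
  obtain ⟨C', w', hC', hw'0, hw', hG'⟩ := (hKUM k F Ω B s _ hn'1).1 _ hG0
    (fun g => (s.s g).commutes _)
  obtain ⟨d, hd⟩ : ∃ d : k, d ^ N = C₀ / C' := by
    refine (hKUM k F Ω B s N hN).2 (C₀ / C') (w' ^ (2 * D * (R + 1).factorial) / w₀) (fun g => ?_) ?_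
    · rw [map_div₀, map_pow, hw', hw₀]
    · have h1 := hG.symm.trans hG'
      have h2 : algebraMap k Ω C' ≠ 0 := (_root_.map_ne_zero _).2 hC'
      rw [div_pow, ← pow_mul, map_div₀, div_eq_div_iff (pow_ne_zero _ hw₀0) h2, mul_comm _ N]
      linear_combination -h1
  have hd0 : d ≠ 0 := by
    rintro rfl
    rw [zero_pow (by omega)] at hd
    exact div_ne_zero hC₀ hC' hd.symm
  have hCC : C₀ = C' * d ^ N := by
    rw [hd]
    field_simp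
  obtain ⟨P', Q', hP', hQ', hQt', hPt', hPQ'⟩ := ratfun hgen C' hC'
  have hcong := order_congr htr hgen hP hQ hP' hQ' hPQ hPQ' hd0 hCC ρ
  refine (Int.dvd_iff_dvd_of_dvd_sub hcong).2 ?_
  -- norms of the polynomials
  let j₁ : k₁ →+* PadicAlgCl 2 := ι₀.comp (algebraMap k₁ (algebraicClosure k₁ B))
  have hj₁ : Function.Injective j₁ := j₁.injective
  obtain ⟨κP, εP, hκP, hεP, hnP⟩ := hNORM (PadicAlgCl 2) (P'.map j₁)
    ((Polynomial.map_ne_zero_iff hj₁).2 hP') (ι₀ ρ)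
  obtain ⟨κQ, εQ, hκQ, hεQ, hnQ⟩ := hNORM (PadicAlgCl 2) (Q'.map j₁)
    ((Polynomial.map_ne_zero_iff hj₁).2 hQ') (ι₀ ρ)
  have hroot : ∀ g : k₁[X], (g.map j₁).rootMultiplicity (ι₀ ρ) =
      (g.map (algebraMap k₁ (algebraicClosure k₁ B))).rootMultiplicity ρ := by
    intro g
    rw [eq_rootMultiplicity_map ι₀.injective, Polynomial.map_map]
  rw [hroot] at hnP hnQ
  set vP := (P'.map (algebraMap k₁ (algebraicClosure k₁ B))).rootMultiplicity ρ with hvP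
  set vQ := (Q'.map (algebraMap k₁ (algebraicClosure k₁ B))).rootMultiplicity ρ with hvQ
  have hηC : ‖algebraMap ℚ_[2] (PadicAlgCl 2) η‖ = 1 := by
    rw [PadicAlgCl.norm_extends, hη]
  obtain ⟨ε, κ, j₀, hε, hκ, hnear⟩ := near norm_two (ι₀ ς) (algebraMap ℚ_[2] (PadicAlgCl 2) η) hηC
  obtain ⟨J₁, hJ₁⟩ := exists_pow_lt_of_lt_one (div_pos (lt_min hεP hεQ) hκ)
    (y := (1 / 2 : ℝ)) (by norm_num)
  set J := max 1 (max j₀ J₁) with hJ
  have hloc : ∀ i : ℕ, ∃ (u : Option L), (∀ X₀, u = some X₀ → Chain aL bL cL X₀) ∧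
      ∃ ω : L, ω ≠ 0 ∧ Gam ((2 : L) ^ m) ((2 : L) ^ m') u ≠ 0 ∧
        ‖((Gam ((2 : L) ^ m) ((2 : L) ^ m') u : L) : PadicAlgCl 2)‖ =
          (((1 / 2 : ℝ) ^ (ε * (J + i)) * κ) ^ vP * κP) /
          (((1 / 2 : ℝ) ^ (ε * (J + i)) * κ) ^ vQ * κQ) *
          ‖(ω : PadicAlgCl 2)‖ ^ (N * (2 * D * (R + 1).factorial)) := by
    intro i
    obtain ⟨ι, hιA, hιr⟩ := hι ς (J + i) (by omega)
    have hk₁ : ∀ z : k₁, ι (algebraMap k B (algebraMap k₁ k z)) = j₁ z := by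
      intro z
      rw [← IsScalarTower.algebraMap_apply k₁ k B]
      exact hιA (algebraMap k₁ _ z)
    have hk₁L : ∀ z : k₁, ι (algebraMap k B (algebraMap k₁ k z)) ∈ L := by
      intro z
      rw [hk₁]
      exact hL₀L (hι₀ z)
    have hrL : ι r ∈ L := by
      rw [hιr]
      refine add_mem hςL (mul_mem (pow_mem ?_ _) (L.algebraMap_mem η))
      have h2 : (2 : PadicAlgCl 2) = algebraMap ℚ_[2] (PadicAlgCl 2) 2 := (map_ofNat _ 2).symm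
      rw [h2]
      exact L.algebraMap_mem 2
    have hTL : ∀ z ∈ T, ι z ∈ L := by
      intro z hz
      have h1 := hιA ⟨z, hmA z hz⟩
      change ι z = _ at h1
      rw [h1]
      exact hTL₀ z hz
    obtain ⟨u, hu, ω, hω, hg0, hg⟩ := local_data hKOEL hEVAL s hgen L hL ι hk₁L T a b c r hr hrL
      hTL aL bL cL (hιA ⟨a, hmA a haT⟩) (hιA ⟨b, hmA b hbT⟩) (hιA ⟨c, hmA c hcT⟩) x E hx X α β γ
      hX0 hH hfix m m' (fun X₀ h => ⟨hsmall m hm X₀ h, hsmall m' hm' X₀ h⟩) C' hC' w' hw' _ hn'1 hG'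
    refine ⟨u, hu, ω, hω, hg0, ?_⟩
    rw [hg, norm_mul, norm_pow]
    congr 1
    -- the norm of `C'`
    have hτ : (ι.comp (algebraMap k B)) t₀ =
        (ι₀ ς + 2 ^ (J + i) * algebraMap ℚ_[2] (PadicAlgCl 2) η) ^ 2 := by
      rw [RingHom.comp_apply, ← hr, map_pow, hιr]
    have hρ : ι₀ ρ = ι₀ ς ^ 2 := by rw [← hς, map_pow]
    have hdist : ‖(ι.comp (algebraMap k B)) t₀ - ι₀ ρ‖ = (1 / 2 : ℝ) ^ (ε * (J + i)) * κ := by
      rw [hτ, hρ]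
      exact hnear (J + i) (by omega)
    have hdist0 : 0 < ‖(ι.comp (algebraMap k B)) t₀ - ι₀ ρ‖ := by
      rw [hdist]
      positivity
    have hdistε : ‖(ι.comp (algebraMap k B)) t₀ - ι₀ ρ‖ < min εP εQ := by
      rw [hdist]
      have h1 : (1 / 2 : ℝ) ^ (ε * (J + i)) ≤ (1 / 2 : ℝ) ^ J₁ := by
        refine pow_le_pow_of_le_one (by norm_num) (by norm_num) ?_
        rcases hε with rfl | rfl <;> omega
      calc (1 / 2 : ℝ) ^ (ε * (J + i)) * κ ≤ (1 / 2 : ℝ) ^ J₁ * κ :=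
            mul_le_mul_of_nonneg_right h1 hκ.le
        _ < min εP εQ / κ * κ := mul_lt_mul_of_pos_right hJ₁ hκ
        _ = min εP εQ := div_mul_cancel₀ _ hκ.ne'
    have hcomp : (ι.comp (algebraMap k B)).comp (algebraMap k₁ k) = j₁ := by
      ext z
      exact hk₁ z
    have e1 : ι (algebraMap k B C') = (ι.comp (algebraMap k B)) C' := rfl
    rw [e1, hPQ', map_div₀, emb_val, emb_val, hcomp, norm_div,
      hnP _ hdist0 (lt_of_lt_of_le hdistε (min_le_left _ _)),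
      hnQ _ hdist0 (lt_of_lt_of_le hdistε (min_le_right _ _)), hdist]
  choose u hu ω hω hg0 hg using hloc
  -- the pigeonhole principle
  let S' : Finset (Option L) := insert none (hfin.toFinset.image some)
  have hS' : S'.card < (Finset.range (R + 2)).card := by
    rw [Finset.card_range]
    have h1 : S'.card ≤ (hfin.toFinset.image some).card + 1 := Finset.card_insert_le _ _
    have h2 : (hfin.toFinset.image some).card ≤ R := Finset.card_image_le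
    omega
  have hmaps : Set.MapsTo u (Finset.range (R + 2) : Set ℕ) S' := by
    intro i _
    rw [Finset.mem_coe, Finset.mem_insert]
    rcases h : u i with _ | X₀
    · exact Or.inl rfl
    · right
      rw [Finset.mem_image]
      exact ⟨X₀, by rw [Set.Finite.mem_toFinset]; exact hu i X₀ h, rfl⟩
  obtain ⟨i, hi, i', hi', hii, huu⟩ := Finset.exists_ne_map_eq_of_card_lt_of_maps_to hS' hmaps
  rw [Finset.mem_range] at hi hi'
  have hωn : ∀ i, 0 < ‖(ω i : PadicAlgCl 2)‖ := fun i => norm_pos_iff.2 fun h =>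
    hω i (Subtype.ext h)
  have hωD : ∀ i, ∃ z : ℤ, ‖(ω i : PadicAlgCl 2)‖ ^ D = (2 : ℝ) ^ z := by
    intro i
    obtain ⟨z, hz⟩ := hD (ω i : PadicAlgCl 2) (ω i).2 (fun h => hω i (Subtype.ext h))
    exact ⟨z, by exact_mod_cast hz⟩
  have hfinal : ∀ i i' : ℕ, i < i' → i' < R + 2 → u i = u i' → (N : ℤ) ∣ (vP : ℤ) - vQ := by
    intro i i' hlt hi' huu
    obtain ⟨z, hz⟩ := hωD i
    obtain ⟨z', hz'⟩ := hωD i'
    refine count_end (v := 0) (J := J) hD1 hε hκ hκP hκQ (hωn i) (hωn i') hlt (by omega) (hg i) ?_ hz hz'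
    rw [huu]
    exact hg i'
  rcases lt_or_gt_of_ne hii with h | h
  · exact hfinal i i' h hi' huu
  · exact hfinal i' i h hi huu.symm

end Pool.Agent.Zk12.HT
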