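import Mathlib
import Pool.Agent.Zk12.HT.Stm2

/-!
# Project HT: the final form of the theorem
-/

set_option autoImplicit false
set_option linter.all false

open Polynomial

namespace Pool.Agent.Zk12.HT

open Pool.Agent.TH954

/-- Let `F` be a field over `k` with elements `x`, `y`, `d y² = f(x)`, where `x` is transcendental over
`k` and `F` is algebraic over `k(x)`, that is, the function field of the curve `d y² = f(x)` or of a
curve over `k` which dominates it, and let `Ω` be an algebraic closure of `F`. Every section of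
`Gal(Ω/F) → G_k` arises from exactly one rational point, and this point lies over one of the rational
branch points of `d y² = f(x)`: `x = e` there, where `f(e) = 0`, or `x = ∞` if the degree is odd. -/
def BSC {k : Type} [Field k] (f : k[X]) (d : k) : Prop :=
  ∀ (F Ω B : Type) [Field F] [Field Ω] [Field B] [Algebra k F] [Algebra F Ω] [Algebra k Ω]
    [Algebra k B] [IsScalarTower k F Ω] [IsAlgClosure F Ω] [IsAlgClosure k B] (x y : F),
    Transcendental k x → Algebra.IsAlgebraic (IntermediateField.adjoin k {x}) F →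
    algebraMap k F d * y ^ 2 = aeval x f →
    ∀ s : GalSection k F Ω B, ∃ O : ValuationSubring F, s.ArisesFrom O ∧
      (∀ O' : ValuationSubring F, s.ArisesFrom O' → O' = O) ∧
      ((∃ e : k, f.eval e = 0 ∧ x - algebraMap k F e ∈ O.nonunits) ∨
        (Odd f.natDegree ∧ x⁻¹ ∈ O.nonunits))

/-- the form in which the theorem is proved -/
def Core {k : Type} [Field k] (f : k[X]) (d : k) : Prop :=
  ∀ (F Ω B : Type) [Field F] [Field Ω] [Field B] [Algebra k F] [Algebra F Ω] [Algebra k Ω]
    [Algebra k B] [IsScalarTower k F Ω] [IsAlgClosure F Ω] [IsAlgClosure k B] (x y : F),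
    Transcendental k x → Algebra.IsAlgebraic (IntermediateField.adjoin k {x}) F →
    algebraMap k F d * y ^ 2 = aeval x f →
    ∀ s : GalSection k F Ω B, ∃ O : ValuationSubring F, (aeval x f)⁻¹ ∉ O ∧ s.ArisesFrom O ∧
      ∀ O' : ValuationSubring F, s.ArisesFrom O' → O' = O

theorem mem_nonunits_iff_lt {F : Type} [Field F] (O : ValuationSubring F) (z : F) :
    z ∈ O.nonunits ↔ O.valuation z < 1 := ValuationSubring.mem_nonunits_iff O

/-- the value of `x` at a place where `g(x)` vanishes -/
theorem root_at {k F : Type} [Field k] [Field F] [Algebra k F] (O : ValuationSubring F)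
    (hO1 : ∀ c : k, algebraMap k F c ∈ O)
    (hO2 : ∀ a ∈ O, ∃ c : k, O.valuation (a - algebraMap k F c) < 1) (x : F) (g : k[X])
    (hg : 1 ≤ g.natDegree) (h : (aeval x g)⁻¹ ∉ O) :
    x ∈ O ∧ ∃ e : k, g.eval e = 0 ∧ x - algebraMap k F e ∈ O.nonunits := by
  have hg0 : aeval x g ≠ 0 := by
    intro h0
    rw [h0, inv_zero] at h
    exact h O.zero_mem
  have hgO : aeval x g ∈ O.nonunits := by
    rw [mem_nonunits_iff_lt]
    have h1 : 1 < O.valuation (aeval x g)⁻¹ := by
      rw [← not_le]
      intro h2
      exact h ((O.valuation_le_one_iff _).1 h2)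
    rw [map_inv₀] at h1
    have h2 : O.valuation (aeval x g) ≠ 0 := (Valuation.ne_zero_iff _).2 hg0
    exact (one_lt_inv₀ (zero_lt_iff.2 h2)).1 h1
  have hval : ∀ c : k, c ≠ 0 → O.valuation (algebraMap k F c) = 1 := by
    intro c hc
    apply le_antisymm ((O.valuation_le_one_iff _).2 (hO1 c))
    have h1 := (O.valuation_le_one_iff _).2 (hO1 c⁻¹)
    rw [map_inv₀, map_inv₀] at h1
    have h2 : O.valuation (algebraMap k F c) ≠ 0 :=
      (Valuation.ne_zero_iff _).2 ((_root_.map_ne_zero _).2 hc)
    exact (inv_le_one₀ (zero_lt_iff.2 h2)).1 h1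
  have hx : x ∈ O := by
    by_contra hx
    have hx1 : 1 < O.valuation x := by
      rw [← not_le]
      intro h2
      exact hx ((O.valuation_le_one_iff _).1 h2)
    -- the leading term dominates
    have h1 : O.valuation (aeval x g) = O.valuation x ^ g.natDegree := by
      rw [aeval_eq_sum_range, Finset.sum_range_succ]
      have hlead : O.valuation (g.coeff g.natDegree • x ^ g.natDegree) =
          O.valuation x ^ g.natDegree := by
        rw [Algebra.smul_def, map_mul, map_pow, hval, one_mul]
        intro h0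
        rw [coeff_natDegree, leadingCoeff_eq_zero] at h0
        rw [h0, natDegree_zero] at hg
        omega
      have hsmall : O.valuation (∑ i ∈ Finset.range g.natDegree, g.coeff i • x ^ i) <
          O.valuation (g.coeff g.natDegree • x ^ g.natDegree) := by
        rw [hlead]
        refine Valuation.map_sum_lt _ (pow_ne_zero _ ?_) fun i hi => ?_
        · exact (zero_lt_one.trans hx1).ne'
        · rw [Algebra.smul_def, map_mul, map_pow]
          have h3 : O.valuation (algebraMap k F (g.coeff i)) ≤ 1 :=
            (O.valuation_le_one_iff _).2 (hO1 _)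
          have h4 : O.valuation x ^ i < O.valuation x ^ g.natDegree :=
            pow_lt_pow_right₀ hx1 (Finset.mem_range.1 hi)
          calc O.valuation (algebraMap k F (g.coeff i)) * O.valuation x ^ i ≤
                1 * O.valuation x ^ i := mul_le_mul_left h3 _
            _ < _ := by rw [one_mul]; exact h4
      rw [Valuation.map_add_eq_of_lt_right _ hsmall, hlead]
    rw [mem_nonunits_iff_lt, h1] at hgO
    exact absurd hgO (not_lt.2 (one_le_pow₀ hx1.le))
  refine ⟨hx, ?_⟩
  obtain ⟨e, he⟩ := hO2 x hx
  refine ⟨e, ?_, (mem_nonunits_iff_lt O _).2 he⟩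
  by_contra hne
  -- `g(x) - g(e)` is divisible by `x - e`
  obtain ⟨q, hq⟩ := Polynomial.X_sub_C_dvd_sub_C_eval (a := e) (p := g)
  have h1 : aeval x g - algebraMap k F (g.eval e) = (x - algebraMap k F e) * aeval x q := by
    have h2 := congrArg (aeval x : k[X] → F) hq
    simpa using h2
  have h2 : aeval x q ∈ O := by
    rw [aeval_eq_sum_range]
    refine sum_mem fun i _ => ?_
    rw [Algebra.smul_def]
    exact mul_mem (hO1 _) (pow_mem hx i)
  have h3 : O.valuation (aeval x g - algebraMap k F (g.eval e)) < 1 := by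
    rw [h1, map_mul]
    calc O.valuation (x - algebraMap k F e) * O.valuation (aeval x q) ≤
          O.valuation (x - algebraMap k F e) * 1 :=
            mul_le_mul_right ((O.valuation_le_one_iff _).2 h2) _
      _ < 1 := by rw [mul_one]; exact he
  have h4 : O.valuation (algebraMap k F (g.eval e)) < 1 := by
    have h5 : algebraMap k F (g.eval e) = aeval x g - (aeval x g - algebraMap k F (g.eval e)) := by
      ring
    rw [h5]
    exact lt_of_le_of_lt (Valuation.map_sub _ _ _) (max_lt ((mem_nonunits_iff_lt O _).1 hgO) h3)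
  rw [hval _ hne] at h4
  exact lt_irrefl _ h4

theorem bsc_of_core {k : Type} [Field k] {f : k[X]} {d : k} (hf : 1 ≤ f.natDegree)
    (h : Core f d) : BSC f d := by
  intro F Ω B _ _ _ _ _ _ _ _ _ _ x y hx hF hxy s
  obtain ⟨O, h1, h2, h3⟩ := h F Ω B x y hx hF hxy s
  obtain ⟨-, e, he, hxe⟩ := root_at O h2.2.1 h2.2.2.1 x f hf h1
  exact ⟨O, h2, h3, Or.inl ⟨e, he, hxe⟩⟩

/-- the statement on polynomials of odd degree (helper9) -/
def S_ODD : Prop := ∀ (k : Type) [Field k] [CharZero k] (f : Polynomial k), f.Separable →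
  Odd f.natDegree → 3 ≤ f.natDegree →
  ∃ (a : k) (g : Polynomial k), f.eval a ≠ 0 ∧ g.Separable ∧ g.natDegree = f.natDegree + 1 ∧
    g.eval 0 = 0 ∧ (∀ z : k, z ≠ 0 → (g.eval z = 0 ↔ f.eval (a + z⁻¹) = 0)) ∧
    ∀ (F : Type) [Field F] [Algebra k F] (x : F), x ≠ algebraMap k F a →
      Polynomial.aeval (x - algebraMap k F a)⁻¹ g =
        Polynomial.aeval x f * ((x - algebraMap k F a)⁻¹) ^ (f.natDegree + 1)

end Pool.Agent.Zk12.HT
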