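import Mathlib
import Pool.Agent.Zk12.HT.Con5
import Pool.Agent.Zk12.HT.ConF2
import Pool.Agent.Zk12.HT.End
import Pool.Agent.Zk78.HT.Fin
import Pool.Agent.Zk78.HT.Powr
import Pool.Agent.Zk78.HT.Disc
import Pool.Agent.Zk80.HT.Kumm
import Pool.Agent.Zk80.HT.Norm
import Pool.Agent.Zk80.HT.E4
import Pool.Agent.Zk95.HT.Koel
import Pool.Agent.Zk95.HT.Eval
import Pool.Agent.Zk95.HT.E1
import Pool.Agent.Zk17.HT.E2
import Pool.Agent.Zk95.FG.All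

/-!
# Project HT: all parts together
-/

set_option autoImplicit false
set_option linter.all false

open Polynomial

namespace Pool.Agent.Zk12.HT

open Pool.Agent.TH954 Pool.Agent.Zk12.FG

theorem ell : S_ELL := Pool.Agent.Zk80.HT.ell Pool.Agent.Zk95.HT.e1
  (Pool.Agent.Zk17.HT.t_E2 Pool.Agent.Zk95.HT.e1) Pool.Agent.Zk17.HT.t_E3

theorem ht_of (hTOW : S_TOW) (hEMB : S_EMB) : S_HT :=
  Pool.Agent.Zk78.HT.fin (con hTOW ell Pool.Agent.Zk95.HT.koel Pool.Agent.Zk95.HT.eval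
    Pool.Agent.Zk80.HT.kumm hEMB Pool.Agent.Zk78.HT.t_POWR Pool.Agent.Zk80.HT.norm
    Pool.Agent.Zk78.HT.t_DISC) Pool.Agent.Zk95.FG.obs Pool.Agent.Zk95.FG.koep Pool.Agent.Zk95.FG.pow

theorem conF_of (hTOW : S_TOWF) (hEMB : S_EMBF) : S_CONF :=
  conF hTOW ell Pool.Agent.Zk95.HT.koel Pool.Agent.Zk95.HT.eval
    Pool.Agent.Zk80.HT.kumm hEMB Pool.Agent.Zk78.HT.t_POWR Pool.Agent.Zk80.HT.norm
    Pool.Agent.Zk78.HT.t_DISC

end Pool.Agent.Zk12.HT
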