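import Mathlib
import Pool.Agent.Zk12.HT.End

/-!
# Project HT: polynomials of odd degree
-/

set_option autoImplicit false
set_option linter.all false

open Polynomial

namespace Pool.Agent.Zk12.HT

open Pool.Agent.TH954

theorem bsc_all (hODD : S_ODD) {k₁ k : Type} [Field k₁] [CharZero k₁] [Field k] [Algebra k₁ k]
    (d : k) (hcore : ∀ g : k₁[X], g.Separable → Even g.natDegree → 4 ≤ g.natDegree →
      Core (g.map (algebraMap k₁ k)) d) (f : k₁[X]) (hf : f.Separable) (h3 : 3 ≤ f.natDegree) :
    BSC (f.map (algebraMap k₁ k)) d := by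
  rcases Nat.even_or_odd f.natDegree with hev | hodd
  · refine bsc_of_core ?_ (hcore f hf hev ?_)
    · rw [natDegree_map]; omega
    · rcases hev with ⟨m, hm⟩; omega
  obtain ⟨a, g, hfa, hg, hgd, hg0, hgz, hgF⟩ := hODD k₁ f hf hodd h3
  have hc := hcore g hg (by rw [hgd]; exact hodd.add_one) (by omega)
  intro F Ω B _ _ _ _ _ _ _ _ _ _ x y hx hF hxy s
  letI : Algebra k₁ F := ((algebraMap k F).comp (algebraMap k₁ k)).toAlgebra
  haveI : IsScalarTower k₁ k F := IsScalarTower.of_algebraMap_eq fun _ => rfl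
  have hxa : x ≠ algebraMap k F (algebraMap k₁ k a) := by
    rintro rfl
    exact hx (isAlgebraic_algebraMap _)
  have hxa' : x - algebraMap k F (algebraMap k₁ k a) ≠ 0 := sub_ne_zero.2 hxa
  set x' : F := (x - algebraMap k F (algebraMap k₁ k a))⁻¹ with hx'
  have hx'0 : x' ≠ 0 := inv_ne_zero hxa'
  have hxx : x = x'⁻¹ + algebraMap k F (algebraMap k₁ k a) := by
    rw [hx', inv_inv, sub_add_cancel]
  have hadj : IntermediateField.adjoin k {x'} = IntermediateField.adjoin k {x} := by
    apply le_antisymm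
    · rw [IntermediateField.adjoin_le_iff]
      rintro _ rfl
      exact inv_mem (sub_mem (IntermediateField.mem_adjoin_simple_self k x)
        (IntermediateField.algebraMap_mem _ _))
    · rw [IntermediateField.adjoin_le_iff]
      rintro _ rfl
      have h1 : x'⁻¹ + algebraMap k F (algebraMap k₁ k a) ∈ IntermediateField.adjoin k {x'} :=
        add_mem (inv_mem (IntermediateField.mem_adjoin_simple_self k x'))
          (IntermediateField.algebraMap_mem _ _)
      rw [← hxx] at h1
      exact h1
  have hx't : Transcendental k x' := by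
    intro h
    apply hx
    rw [hxx]
    exact h.inv.add (isAlgebraic_algebraMap _)
  have hF' : Algebra.IsAlgebraic (IntermediateField.adjoin k {x'}) F := hadj ▸ hF
  obtain ⟨m, hm⟩ : Even (f.natDegree + 1) := hodd.add_one
  have hxy' : algebraMap k F d * (y * x' ^ m) ^ 2 = aeval x' (g.map (algebraMap k₁ k)) := by
    rw [aeval_map_algebraMap, hx']
    have h1 := hgF F x (by
      rw [IsScalarTower.algebraMap_apply k₁ k F]
      exact hxa)
    rw [IsScalarTower.algebraMap_apply k₁ k F] at h1
    rw [h1, mul_pow, ← mul_assoc, hxy, aeval_map_algebraMap, ← pow_mul, hm]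
    congr 2
    ring
  obtain ⟨O, h1, h2, h4⟩ := hc F Ω B x' (y * x' ^ m) hx't hF' hxy' s
  refine ⟨O, h2, h4, ?_⟩
  obtain ⟨hxO, e, he, hxe⟩ := root_at O h2.2.1 h2.2.2.1 x' (g.map (algebraMap k₁ k))
    (by rw [natDegree_map]; omega) h1
  have hval : ∀ c : k, c ≠ 0 → O.valuation (algebraMap k F c) = 1 := by
    intro c hc
    apply le_antisymm ((O.valuation_le_one_iff _).2 (h2.2.1 c))
    have h1 := (O.valuation_le_one_iff _).2 (h2.2.1 c⁻¹)
    rw [map_inv₀, map_inv₀] at h1
    have h2 : O.valuation (algebraMap k F c) ≠ 0 :=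
      (Valuation.ne_zero_iff _).2 ((_root_.map_ne_zero _).2 hc)
    exact (inv_le_one₀ (zero_lt_iff.2 h2)).1 h1
  by_cases he0 : e = 0
  · right
    refine ⟨by rw [natDegree_map]; exact hodd, ?_⟩
    rw [he0, map_zero, sub_zero, mem_nonunits_iff_lt] at hxe
    rw [mem_nonunits_iff_lt]
    -- `x = 1 / x' + a` has a pole
    have h5 : 1 < O.valuation x'⁻¹ := by
      rw [map_inv₀]
      exact (one_lt_inv₀ (zero_lt_iff.2 ((Valuation.ne_zero_iff _).2 hx'0))).2 hxe
    have h6 : O.valuation (algebraMap k F (algebraMap k₁ k a)) < O.valuation x'⁻¹ :=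
      lt_of_le_of_lt ((O.valuation_le_one_iff _).2 (h2.2.1 _)) h5
    have h7 : O.valuation x = O.valuation x'⁻¹ := by
      rw [hxx]
      exact Valuation.map_add_eq_of_lt_left _ h6
    rw [map_inv₀, h7]
    exact inv_lt_one_of_one_lt₀ h5
  · left
    -- the root of `f`
    have hgk : ∀ z : k, z ≠ 0 → (g.map (algebraMap k₁ k)).eval z = 0 →
        (f.map (algebraMap k₁ k)).eval (algebraMap k₁ k a + z⁻¹) = 0 := by
      intro z hz h
      have hza : algebraMap k₁ k a + z⁻¹ ≠ algebraMap k₁ k a := by
        intro h0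
        have h9 : z⁻¹ = 0 := by linear_combination h0
        exact inv_ne_zero hz h9
      have h8 := hgF k (algebraMap k₁ k a + z⁻¹) hza
      rw [add_sub_cancel_left, inv_inv] at h8
      rw [eval_map, ← aeval_def] at h ⊢
      rw [h] at h8
      rcases mul_eq_zero.1 h8.symm with h9 | h9
      · exact h9
      · exact absurd h9 (pow_ne_zero _ hz)
    refine ⟨algebraMap k₁ k a + e⁻¹, hgk e he0 he, ?_⟩
    rw [mem_nonunits_iff_lt] at hxe ⊢
    have h5 : O.valuation x' = 1 := by
      have h6 : x' = algebraMap k F e + (x' - algebraMap k F e) := by ring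
      rw [h6, Valuation.map_add_eq_of_lt_left _ (by rw [hval e he0]; exact hxe), hval e he0]
    have h6 : x - algebraMap k F (algebraMap k₁ k a + e⁻¹) =
        -(x' - algebraMap k F e) * (x'⁻¹ * algebraMap k F e⁻¹) := by
      have he' : algebraMap k F e ≠ 0 := (_root_.map_ne_zero _).2 he0
      rw [hxx, map_add, map_inv₀]
      field_simp
      ring
    rw [h6, map_mul, Valuation.map_neg, map_mul, map_inv₀, h5, hval _ (inv_ne_zero he0), inv_one,
      mul_one, mul_one]
    exact hxe

end Pool.Agent.Zk12.HT
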