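import Mathlib
import Pool.Agent.Zk12.HT.All
import Pool.Agent.Zk12.HT.End2
import Pool.Agent.Zk47.HT.Tow
import Pool.Agent.Zk47.HT.TowF
import Pool.Agent.Zk81.HT.Emb
import Pool.Agent.Zk81.HT.EmbF

/-!
# Project HT: the theorem, from the last open part
-/

set_option autoImplicit false
set_option linter.all false

open Polynomial

namespace Pool.Agent.Zk12.HT

open Pool.Agent.TH954 Pool.Agent.Zk12.FG

theorem ht_main (hTOWA : S_TOWA) : S_HT :=
  ht_of (Pool.Agent.Zk47.HT.tow hTOWA) Pool.Agent.Zk81.HT.emb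

theorem conF_main (hTOWA : S_TOWA) : S_CONF :=
  conF_of (Pool.Agent.Zk47.HT.towF hTOWA) Pool.Agent.Zk81.HT.embF

theorem core_of_ht (hHT : S_HT) (n : ℕ) (k₁ k : Type) [Field k₁] [Field k] [Algebra ℚ k₁]
    [Algebra k₁ k] (t : Fin n → k₁) (ht : RatFn ℚ t) (t₀ : k) (ht₀ : Transcendental k₁ t₀)
    (hgen : IntermediateField.adjoin k₁ {t₀} = ⊤) (g : k₁[X]) (hg : g.Separable)
    (hev : Even g.natDegree) (h4 : 4 ≤ g.natDegree) : Core (g.map (algebraMap k₁ k)) t₀ := by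
  intro F Ω B _ _ _ _ _ _ _ _ _ _ x y hx hF hxy s
  exact hHT n k₁ k F Ω B t t₀ g x y ⟨ht, ht₀, hgen, hg, hev, h4, hx, hF, hxy⟩ s

theorem core_of_htf (hHT : S_HTF) (k₁ k : Type) [Field k₁] [CharZero k₁] [Field k]
    [Algebra k₁ k] (hfg : (⊤ : IntermediateField ℚ k₁).FG) (t₀ : k) (ht₀ : Transcendental k₁ t₀)
    (hgen : IntermediateField.adjoin k₁ {t₀} = ⊤) (g : k₁[X]) (hg : g.Separable)
    (hev : Even g.natDegree) (h4 : 4 ≤ g.natDegree) : Core (g.map (algebraMap k₁ k)) t₀ := by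
  intro F Ω B _ _ _ _ _ _ _ _ _ _ x y hx hF hxy s
  exact hHT k₁ k F Ω B t₀ g x y ⟨hfg, ht₀, hgen, hg, hev, h4, hx, hF, hxy⟩ s

/-- the factor `c t ^ m` -/
theorem bsc_scale {k₁ k : Type} [Field k₁] [CharZero k₁] [Field k] [Algebra k₁ k]
    (H : ∀ t₀ : k, Transcendental k₁ t₀ → IntermediateField.adjoin k₁ {t₀} = ⊤ →
      ∀ f : k₁[X], f.Separable → 3 ≤ f.natDegree → BSC (f.map (algebraMap k₁ k)) t₀)
    (t₀ : k) (ht₀ : Transcendental k₁ t₀) (hgen : IntermediateField.adjoin k₁ {t₀} = ⊤)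
    (f : k₁[X]) (hf : f.Separable) (h3 : 3 ≤ f.natDegree) (c : k₁) (hc : c ≠ 0) (m : ℤ)
    (hm : Odd m) : BSC (f.map (algebraMap k₁ k)) (algebraMap k₁ k c * t₀ ^ m) := by
  have ht0 : t₀ ≠ 0 := by
    rintro rfl
    exact ht₀ isAlgebraic_zero
  have hc' : algebraMap k₁ k c ≠ 0 := (_root_.map_ne_zero _).2 hc
  have h1 : Transcendental k₁ (algebraMap k₁ k c * t₀) := by
    intro h
    apply ht₀
    have h2 : t₀ = algebraMap k₁ k c⁻¹ * (algebraMap k₁ k c * t₀) := by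
      rw [map_inv₀, inv_mul_cancel_left₀ hc']
    rw [h2]
    exact (isAlgebraic_algebraMap _).mul h
  have h2 : IntermediateField.adjoin k₁ {algebraMap k₁ k c * t₀} = ⊤ := by
    rw [eq_top_iff, ← hgen, IntermediateField.adjoin_le_iff]
    intro z hz
    rw [Set.mem_singleton_iff] at hz
    rw [hz]
    have h3 : t₀ = algebraMap k₁ k c⁻¹ * (algebraMap k₁ k c * t₀) := by
      rw [map_inv₀, inv_mul_cancel_left₀ hc']
    have h4 : algebraMap k₁ k c⁻¹ * (algebraMap k₁ k c * t₀) ∈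
        IntermediateField.adjoin k₁ {algebraMap k₁ k c * t₀} :=
      mul_mem (IntermediateField.algebraMap_mem _ _)
        (IntermediateField.mem_adjoin_simple_self k₁ (algebraMap k₁ k c * t₀))
    rw [← h3] at h4
    exact h4
  obtain ⟨j, hj⟩ := hm
  intro F Ω B _ _ _ _ _ _ _ _ _ _ x y hx hF hxy s
  refine H _ h1 h2 f hf h3 F Ω B x (algebraMap k F t₀ ^ j * y) hx hF ?_ s
  have e : t₀ ^ m = t₀ * (t₀ ^ j) ^ 2 := by
    rw [hj, zpow_add₀ ht0, zpow_one, mul_comm (2 : ℤ) j, zpow_mul, mul_comm]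
    norm_cast
  rw [← hxy, e]
  simp only [map_mul, map_pow, map_zpow₀]
  ring

end Pool.Agent.Zk12.HT
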