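import Mathlib
import Pool.Agent.Zk12.HT.Main
import Pool.Agent.Zk17.HT.Odd
import Pool.Agent.Zk78.HT.FinF

/-!
# Project HT: the theorem over finitely generated fields, from the last open parts
-/

set_option autoImplicit false
set_option linter.all false

open Polynomial

namespace Pool.Agent.Zk12.HT

open Pool.Agent.TH954 Pool.Agent.Zk12.FG

theorem htf_main (hTOWA : S_TOWA) (hOBS : S_OBSF) (hPOW : S_POWF) : S_HTF :=
  Pool.Agent.Zk78.HTF.finF (conF_main hTOWA) hOBS Pool.Agent.N890.KO.koenigsmann hPOW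

theorem bsc_fg (hHTF : S_HTF) (k₁ k : Type) [Field k₁] [CharZero k₁]
    (hk₁ : (⊤ : IntermediateField ℚ k₁).FG)
    [Field k] [Algebra k₁ k] (t : k) (ht : Transcendental k₁ t)
    (hgen : IntermediateField.adjoin k₁ {t} = ⊤)
    (f : k₁[X]) (hf : f.Separable) (h3 : 3 ≤ f.natDegree) (c : k₁) (hc : c ≠ 0) (m : ℤ)
    (hm : Odd m) : BSC (f.map (algebraMap k₁ k)) (algebraMap k₁ k c * t ^ m) :=
  bsc_scale (fun t₀ ht₀ hgen f hf h3 => bsc_all Pool.Agent.Zk17.HT.odd t₀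
    (fun g hg hev h4 => core_of_htf hHTF k₁ k hk₁ t₀ ht₀ hgen g hg hev h4) f hf h3)
    t ht hgen f hf h3 c hc m hm

theorem bsc_q (hHT : S_HT) (n : ℕ) (k₁ k : Type) [Field k₁] [Field k] [Algebra ℚ k₁]
    [Algebra k₁ k] (x : Fin n → k₁) (hx : RatFn ℚ x) (t : k) (ht : Transcendental k₁ t)
    (hgen : IntermediateField.adjoin k₁ {t} = ⊤)
    (f : k₁[X]) (hf : f.Separable) (h3 : 3 ≤ f.natDegree) (c : k₁) (hc : c ≠ 0) (m : ℤ)
    (hm : Odd m) : BSC (f.map (algebraMap k₁ k)) (algebraMap k₁ k c * t ^ m) := by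
  haveI : CharZero k₁ := algebraRat.charZero k₁
  exact bsc_scale (fun t₀ ht₀ hgen f hf h3 => bsc_all Pool.Agent.Zk17.HT.odd t₀
    (fun g hg hev h4 => core_of_ht hHT n k₁ k x hx t₀ ht₀ hgen g hg hev h4) f hf h3)
    t ht hgen f hf h3 c hc m hm

end Pool.Agent.Zk12.HT
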