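import Mathlib
import Pool.Agent.Zk12.HT.Final
import Pool.Agent.Zk90.HT.TowA

/-!
# Project HT: the theorem over `ℚ(t_1, …, t_n)(t)`
-/

set_option autoImplicit false
set_option linter.all false

open Polynomial

namespace Pool.Agent.Zk12.HT

open Pool.Agent.TH954 Pool.Agent.Zk12.FG

theorem ht : S_HT := ht_main Pool.Agent.Zk90.HT.towA

theorem conF_final : S_CONF := conF_main Pool.Agent.Zk90.HT.towA

theorem bsc_q_final (n : ℕ) (k₁ k : Type) [Field k₁] [Field k] [Algebra ℚ k₁]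
    [Algebra k₁ k] (x : Fin n → k₁) (hx : RatFn ℚ x) (t : k) (ht : Transcendental k₁ t)
    (hgen : IntermediateField.adjoin k₁ {t} = ⊤)
    (f : k₁[X]) (hf : f.Separable) (h3 : 3 ≤ f.natDegree) (c : k₁) (hc : c ≠ 0) (m : ℤ)
    (hm : Odd m) : BSC (f.map (algebraMap k₁ k)) (algebraMap k₁ k c * t ^ m) :=
  bsc_q Pool.Agent.Zk12.HT.ht n k₁ k x hx t ht hgen f hf h3 c hc m hm

end Pool.Agent.Zk12.HT
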