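import Mathlib
import Pool.Agent.Zk12.HT.Last
import Pool.Agent.Zk80.HT.ObsF
import Pool.Agent.Zk95.HT.PowF

/-!
# Project HT: the theorem over `k₁(t)`, `k₁` any finitely generated field
-/

set_option autoImplicit false
set_option linter.all false

open Polynomial

namespace Pool.Agent.Zk12.HT

open Pool.Agent.TH954 Pool.Agent.Zk12.FG

theorem htf : S_HTF :=
  htf_main Pool.Agent.Zk90.HT.towA Pool.Agent.Zk80.HT.obsF Pool.Agent.Zk95.HT.powF

theorem bsc_final (k₁ k : Type) [Field k₁] [CharZero k₁]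
    (hk₁ : (⊤ : IntermediateField ℚ k₁).FG)
    [Field k] [Algebra k₁ k] (t : k) (ht : Transcendental k₁ t)
    (hgen : IntermediateField.adjoin k₁ {t} = ⊤)
    (f : k₁[X]) (hf : f.Separable) (h3 : 3 ≤ f.natDegree) (c : k₁) (hc : c ≠ 0) (m : ℤ)
    (hm : Odd m) : BSC (f.map (algebraMap k₁ k)) (algebraMap k₁ k c * t ^ m) :=
  bsc_fg htf k₁ k hk₁ t ht hgen f hf h3 c hc m hm

end Pool.Agent.Zk12.HT
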