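import Mathlib
import Pool.Agent.Zk12.HT.LastF

/-!
# Project HT: the generic hyperelliptic curve, the generic elliptic curve (statements)
-/

set_option autoImplicit false
set_option linter.all false

open Polynomial

namespace Pool.Agent.Zk12.HT

/-- **the generic curve** `y² = a_N x^N + … + a_0` over `k₀(a_0, …, a_N)`, `N ≥ 3` -/
def S_GEN : Prop := ∀ (k₀ k : Type) [Field k₀] [CharZero k₀], (⊤ : IntermediateField ℚ k₀).FG →
  ∀ [Field k] [Algebra k₀ k] (N : ℕ), 3 ≤ N → ∀ a : Fin (N + 1) → k, AlgebraicIndependent k₀ a →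
  IntermediateField.adjoin k₀ (Set.range a) = ⊤ → BSC (∑ i : Fin (N + 1), C (a i) * X ^ (i : ℕ)) 1

/-- **the generic elliptic curve** `y² = x³ + a x + b` over `k₀(a, b)` -/
def S_GENE : Prop := ∀ (k₀ k : Type) [Field k₀] [CharZero k₀], (⊤ : IntermediateField ℚ k₀).FG →
  ∀ [Field k] [Algebra k₀ k] (a : Fin 2 → k), AlgebraicIndependent k₀ a →
  IntermediateField.adjoin k₀ (Set.range a) = ⊤ → BSC (X ^ 3 + C (a 0) * X + C (a 1)) 1

/-- **universal curves with rational branch points** `y² = ∏ (x - t_i)`, `N ≥ 3` odd, over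
`k₀(t_1, …, t_N)`, and `t_0 y² = ∏ (x - t_i)`, `N ≥ 3` arbitrary, over `k₀(t_0, …, t_N)` is the case
`f = ∏ (x - t_i)` of the theorem -/
def S_GENS : Prop := ∀ (k₀ k : Type) [Field k₀] [CharZero k₀], (⊤ : IntermediateField ℚ k₀).FG →
  ∀ [Field k] [Algebra k₀ k] (N : ℕ), 3 ≤ N → Odd N → ∀ a : Fin N → k, AlgebraicIndependent k₀ a →
  IntermediateField.adjoin k₀ (Set.range a) = ⊤ → BSC (∏ i : Fin N, (X - C (a i))) 1

end Pool.Agent.Zk12.HT
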